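import Pool.Agent.Run7.h9.BS.Gen

/-!
# The products of Birch and Swinnerton-Dyer: conclusions
-/

set_option autoImplicit false
set_option linter.unusedSectionVars false

namespace Run7.h9.BS

open NumberField IsDedekindDomain Finset Filter Topology Polynomial
open Run7.h876.MM (nv kv nv_pos SZ mem_SZ)
open Run7.h876.EN Run7.h876.HY LocalData

section
variable {K : Type} [Field K] [NumberField K] {J : Type} [Fintype J] [DecidableEq J] (𝓕 : Family K J)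

theorem bsd_eq (Z : ℕ) (t : Fin 2 ⊕ J → 𝓞 K) : bsd Z (𝓕.member t) = Real.exp ((bsdData 𝓕).W Z t) := by
  classical
  unfold bsd LocalData.W bsdData
  rw [Real.exp_sum]
  refine Finset.prod_congr rfl fun v _ => ?_
  have h := one_add_xx_ge 𝓕 v (rd v t)
  have hq := nv_pos v
  rw [Real.exp_log (lt_of_lt_of_le (by positivity) h), one_add_xx]

theorem bsd_pos (Z : ℕ) (t : Fin 2 ⊕ J → 𝓞 K) : 0 < bsd Z (𝓕.member t) := by
  rw [bsd_eq]; exact Real.exp_pos _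

theorem log_bsd (Z : ℕ) (t : Fin 2 ⊕ J → 𝓞 K) : Real.log (bsd Z (𝓕.member t)) = (bsdData 𝓕).W Z t := by
  rw [bsd_eq, Real.log_exp]

variable (K) in
theorem zetaProd_eq (Z : ℕ) : zetaProd K Z = Real.exp (VZ K Z) := by
  unfold zetaProd VZ
  rw [exp_cv]

variable (K) in
theorem log_zetaProd (Z : ℕ) : Real.log (zetaProd K Z) = VZ K Z := by
  rw [zetaProd_eq, Real.log_exp]

variable (K) in
theorem zetaProd_atTop : Tendsto (zetaProd K) atTop atTop := by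
  have : zetaProd K = fun Z => Real.exp (VZ K Z) := funext (zetaProd_eq K)
  rw [this]
  exact Real.tendsto_exp_atTop.comp VZ_atTop

theorem cpow_exp (x : ℝ) (κ : ℂ) : ((Real.exp x : ℝ) : ℂ) ^ κ = Complex.exp (κ * x) := by
  rw [Complex.cpow_def_of_ne_zero (by exact_mod_cast (Real.exp_pos x).ne'), ← Complex.ofReal_log (Real.exp_pos x).le,
    Real.log_exp, mul_comm]

variable {ι : Type} [Fintype ι] [DecidableEq ι] (ω : Module.Basis ι ℤ (𝓞 K))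

theorem fin_mod {R θ ε : ℝ} (hR : 0 ≤ R) (hθ : 0 < θ) (hε : 0 < ε) :
    ∃ Z₀ : ℕ, ∀ Z : ℕ, Z₀ ≤ Z → ∀ H : Fin 2 ⊕ J → ℕ, (∀ j, Real.exp ((Z : ℝ) ^ (1 + θ)) ≤ H j) → ∀ κ : ℂ, ‖κ‖ ≤ R →
      ‖mean ω H 𝓕.smooth (fun t => (bsd Z (𝓕.member t) : ℂ) ^ κ) *
        (zetaProd K Z : ℂ) ^ (-(κ * (𝓕.rk + 1 / 2) + κ ^ 2 / 2)) - (bsdData 𝓕).Psi κ‖ ≤ ε := by
  obtain ⟨Z₀, hZ₀⟩ := (bsdData 𝓕).modGauss ω (by positivity) (thin_smooth 𝓕 ω) hR hθ hε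
  refine ⟨Z₀, fun Z hZ H hH κ hκ => ?_⟩
  have h := hZ₀ Z hZ H hH κ hκ
  refine le_trans (le_of_eq ?_) h
  congr 3
  · congr 1
    funext t
    rw [bsd_eq, cpow_exp]
  · rw [zetaProd_eq, cpow_exp]
    congr 1
    show -(κ * (𝓕.rk + 1 / 2) + κ ^ 2 / 2) * (VZ K Z : ℂ) = -((κ * ((𝓕.rk + 1 / 2 : ℝ) : ℂ) + κ ^ 2 * ((1 : ℝ) : ℂ) / 2) * VZ K Z)
    push_cast
    ring

theorem fin_clt {θ : ℝ} (hθ : 0 < θ) (a : ℝ) {ε : ℝ} (hε : 0 < ε) :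
    ∃ Z₀ : ℕ, ∀ Z : ℕ, Z₀ ≤ Z → ∀ H : Fin 2 ⊕ J → ℕ, (∀ j, Real.exp ((Z : ℝ) ^ (1 + θ)) ≤ H j) →
      |prop ω H 𝓕.smooth (fun t => Real.log (bsd Z (𝓕.member t)) ≤
        (𝓕.rk + 1 / 2) * Real.log (zetaProd K Z) + a * Real.sqrt (Real.log (zetaProd K Z))) - Phi a| ≤ ε := by
  obtain ⟨Z₀, hZ₀⟩ := (bsdData 𝓕).clt ω (by positivity) (thin_smooth 𝓕 ω) hθ a hε
  refine ⟨Z₀, fun Z hZ H hH => ?_⟩
  have h := hZ₀ Z hZ H hH
  refine le_trans (le_of_eq ?_) h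
  congr 3
  funext t
  rw [log_bsd, log_zetaProd]
  have : (bsdData 𝓕).D * VZ K Z = VZ K Z := one_mul _
  rw [this]
  rfl

theorem fin_tail {θ : ℝ} (hθ : 0 < θ) {a : ℝ} (ha : 0 < a) :
    ∃ C : ℝ, 0 < C ∧ ∃ Z₀ : ℕ, ∀ Z : ℕ, Z₀ ≤ Z → ∀ H : Fin 2 ⊕ J → ℕ, (∀ j, Real.exp ((Z : ℝ) ^ (1 + θ)) ≤ H j) →
      prop ω H 𝓕.smooth (fun t => a * Real.log (zetaProd K Z) ≤
        |Real.log (bsd Z (𝓕.member t)) - (𝓕.rk + 1 / 2) * Real.log (zetaProd K Z)|) ≤ C * zetaProd K Z ^ (-(a ^ 2 / 2)) := by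
  obtain ⟨C, hC, Z₀, hZ₀⟩ := (bsdData 𝓕).tail ω (by positivity) (thin_smooth 𝓕 ω) hθ ha
  refine ⟨C, hC, Z₀, fun Z hZ H hH => ?_⟩
  have h := hZ₀ Z hZ H hH
  have e1 : (bsdData 𝓕).D = 1 := rfl
  have e2 : (bsdData 𝓕).m = 𝓕.rk + 1 / 2 := rfl
  rw [e1, e2, mul_one] at h
  rw [zetaProd_eq, ← Real.exp_mul, Real.log_exp]
  refine le_trans (le_of_eq ?_) (h.trans (le_of_eq ?_))
  · congr 1
    funext t
    rw [log_bsd]
  · congr 2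
    ring

theorem fin_round {θ : ℝ} (hθ : 0 < θ) :
    ∃ C : ℝ, 0 < C ∧ ∃ Z₀ : ℕ, ∀ Z : ℕ, Z₀ ≤ Z → ∀ H : Fin 2 ⊕ J → ℕ, (∀ j, Real.exp ((Z : ℝ) ^ (1 + θ)) ≤ H j) →
      prop ω H 𝓕.smooth (fun t => round (Real.log (bsd Z (𝓕.member t)) / Real.log (zetaProd K Z) - 1 / 2) ≠ (𝓕.rk : ℤ)) ≤
        C * zetaProd K Z ^ (-(1 / 8 : ℝ)) := by
  obtain ⟨C, hC, Z₀, hZ₀⟩ := fin_tail 𝓕 ω hθ (a := 1 / 2) (by norm_num)
  obtain ⟨Z₁, hZ₁⟩ := Filter.eventually_atTop.1 ((VZ_atTop (K := K)).eventually_gt_atTop 0)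
  refine ⟨C, hC, max Z₀ Z₁, fun Z hZ H hH => ?_⟩
  have h := hZ₀ Z ((le_max_left _ _).trans hZ) H hH
  have hV : 0 < Real.log (zetaProd K Z) := by
    rw [log_zetaProd]
    exact hZ₁ Z ((le_max_right _ _).trans hZ)
  refine (prop_mono ω H fun t ht => ?_).trans (h.trans (le_of_eq ?_))
  · by_contra hcon
    rw [not_le] at hcon
    apply ht
    set V := Real.log (zetaProd K Z) with hVd
    set B := Real.log (bsd Z (𝓕.member t)) with hB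
    rw [abs_lt] at hcon
    rw [round_eq, Int.floor_eq_iff]
    have e : B / V - 1 / 2 + 1 / 2 = B / V := by ring
    rw [e]
    push_cast
    constructor
    · rw [le_div_iff₀ hV]
      nlinarith [hcon.1]
    · rw [div_lt_iff₀ hV]
      nlinarith [hcon.2]
  · norm_num

end

end Run7.h9.BS
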