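import Pool.Agent.Run7.h876.EN.Ser

/-!
# Local means of complex powers
-/

set_option autoImplicit false
set_option linter.unusedSectionVars false

namespace Run7.h9.BS

open Finset
open Run7.h876.MM (avg norm_avg_le avg_sub')
open Run7.h876.EN (exp_expand)

theorem log_two {x : ℝ} (hx : |x| ≤ 1 / 2) : |Real.log (1 + x) - (x - x ^ 2 / 2)| ≤ 2 * |x| ^ 3 := by
  have h := Real.abs_log_sub_add_sum_range_le (x := -x) (by rw [abs_neg]; linarith) 2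
  rw [abs_neg] at h
  simp only [Finset.sum_range_succ, Finset.sum_range_zero, zero_add, Nat.cast_zero, Nat.cast_one, pow_one, div_one,
    sub_neg_eq_add] at h
  have e : -x + (-x) ^ (1 + 1) / (1 + 1) + Real.log (1 + x) = Real.log (1 + x) - (x - x ^ 2 / 2) := by ring
  rw [e] at h
  refine h.trans ?_
  rw [div_le_iff₀ (by linarith)]
  have h3 : (0 : ℝ) ≤ |x| ^ 3 := by positivity
  have e3 : |x| ^ (2 + 1) = |x| ^ 3 := by norm_num
  rw [e3]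
  nlinarith

theorem log_one' {x : ℝ} (hx0 : 0 ≤ x) (hx : x ≤ 1 / 2) : |-Real.log (1 - x) - x| ≤ 2 * x ^ 2 := by
  have h := Real.abs_log_sub_add_sum_range_le (x := x) (by rw [abs_of_nonneg hx0]; linarith) 1
  rw [abs_of_nonneg hx0] at h
  simp only [Finset.sum_range_succ, Finset.sum_range_zero, zero_add, Nat.cast_zero, pow_one, div_one] at h
  have e : x + Real.log (1 - x) = -(-Real.log (1 - x) - x) := by ring
  rw [e, abs_neg] at h
  refine h.trans ?_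
  rw [div_le_iff₀ (by linarith)]
  have : (0 : ℝ) ≤ x ^ 2 := by positivity
  norm_num
  nlinarith

theorem pow_local (A μ₁ C₁ R : ℝ) (hA : 0 ≤ A) (hC₁ : 0 ≤ C₁) (hR : 0 ≤ R) :
    ∃ C : ℝ, 0 ≤ C ∧ ∀ κ : ℂ, ‖κ‖ ≤ R → ∀ q : ℝ, 2 ≤ q → A / Real.sqrt q ≤ 1 / 2 →
      ∀ (α : Type) [Fintype α] (_ : Nonempty α) (x : α → ℝ), (∀ t, |x t| ≤ A / Real.sqrt q) →
      |(∑ t, x t) / Fintype.card α - μ₁ / q| ≤ C₁ / (q * Real.sqrt q) →
      |(∑ t, x t ^ 2) / Fintype.card α - 1 / q| ≤ C₁ / (q * Real.sqrt q) →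
      ‖avg Finset.univ (fun t => Complex.exp (κ * (Real.log (1 + x t) : ℝ) -
        (κ * (μ₁ - 1 / 2 : ℝ) + κ ^ 2 / 2) * (-Real.log (1 - 1 / q) : ℝ))) - 1‖ ≤ C / (q * Real.sqrt q) := by
  obtain ⟨M, hM⟩ : ∃ M, M = R * |μ₁ - 1 / 2| + R ^ 2 / 2 := ⟨_, rfl⟩
  have hM0 : 0 ≤ M := by rw [hM]; positivity
  obtain ⟨A₁, hA₁⟩ : ∃ B, B = R * A := ⟨_, rfl⟩
  obtain ⟨A₂, hA₂⟩ : ∃ B, B = R * A ^ 2 / 2 + M := ⟨_, rfl⟩
  obtain ⟨A₀, hA₀⟩ : ∃ B, B = 2 * R * A ^ 3 + 2 * M + A₁ + A₂ := ⟨_, rfl⟩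
  have hA₁0 : 0 ≤ A₁ := by rw [hA₁]; positivity
  have hA₂0 : 0 ≤ A₂ := by rw [hA₂]; positivity
  have hA₀0 : 0 ≤ A₀ := by rw [hA₀]; positivity
  obtain ⟨B, hB⟩ : ∃ B, B = A₀ ^ 3 * Real.exp A₀ + A₂ * (A₁ + A₂) + A₀ * (1 + (A₁ + A₂ + A₀)) := ⟨_, rfl⟩
  have hB0 : 0 ≤ B := by rw [hB]; positivity
  refine ⟨B + (R * C₁ + (R ^ 2 + R) / 2 * C₁), by positivity, fun κ hκ q hq hAq α _ _ x hx hx1 hx2 => ?_⟩
  have hq0 : 0 < q := by linarith
  obtain ⟨Q, hQ⟩ : ∃ Q, Q = Real.sqrt q := ⟨_, rfl⟩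
  rw [← hQ] at hAq hx hx1 hx2 ⊢
  have hQ1 : 1 ≤ Q := by rw [hQ]; exact Real.one_le_sqrt.2 (by linarith)
  have hQ0 : 0 < Q := by linarith
  have hQq : Q * Q = q := by rw [hQ]; exact Real.mul_self_sqrt hq0.le
  obtain ⟨y, hy⟩ : ∃ y, y = 1 / Q := ⟨_, rfl⟩
  have hy0 : 0 < y := by rw [hy]; positivity
  have hy1 : y ≤ 1 := by rw [hy, div_le_one hQ0]; exact hQ1
  have hyq : y ^ 2 = 1 / q := by rw [hy, ← hQq]; field_simp
  have hyq3 : y ^ 3 = 1 / (q * Q) := by rw [hy, ← hQq]; field_simp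
  have hAy : A / Q = A * y := by rw [hy]; ring
  rw [hAy] at hx hAq
  have e1 : C₁ / (q * Q) = C₁ * y ^ 3 := by rw [hyq3]; ring
  rw [e1] at hx1 hx2
  obtain ⟨c, hc⟩ : ∃ c, c = -Real.log (1 - 1 / q) := ⟨_, rfl⟩
  have hq2 : 1 / q ≤ 1 / 2 := one_div_le_one_div_of_le (by norm_num) hq
  have hcq := log_one' (x := 1 / q) (by positivity) hq2
  rw [← hc] at hcq ⊢
  have hcard : (0 : ℝ) < Fintype.card α := by exact_mod_cast Fintype.card_pos
  obtain ⟨P, hP⟩ : ∃ P : ℂ, P = κ * (μ₁ - 1 / 2 : ℝ) + κ ^ 2 / 2 := ⟨_, rfl⟩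
  have hPM : ‖P‖ ≤ M := by
    rw [hP, hM]
    refine (norm_add_le _ _).trans (add_le_add ?_ ?_)
    · rw [norm_mul, Complex.norm_real, Real.norm_eq_abs]
      gcongr
    · rw [norm_div, norm_pow, Complex.norm_ofNat]
      gcongr
  rw [← hP]
  have hpt : ∀ t, ‖Complex.exp (κ * (Real.log (1 + x t) : ℝ) - P * (c : ℝ)) -
      (1 + κ * x t + ((-(κ * (x t) ^ 2 / 2) - P * ((1 / q : ℝ) : ℂ)) + (κ * x t) ^ 2 / 2))‖ ≤ B * y ^ 3 := by
    intro t
    have hxt := hx t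
    have hxh : |x t| ≤ 1 / 2 := hxt.trans hAq
    have hlog := log_two hxh
    have h1 : ‖κ * (x t : ℂ)‖ ≤ A₁ * y := by
      rw [norm_mul, Complex.norm_real, Real.norm_eq_abs, hA₁, mul_assoc]
      exact mul_le_mul hκ hxt (abs_nonneg _) hR
    have h2 : ‖-(κ * (x t : ℂ) ^ 2 / 2) - P * ((1 / q : ℝ) : ℂ)‖ ≤ A₂ * y ^ 2 := by
      refine (norm_sub_le _ _).trans ?_
      rw [norm_neg, norm_div, norm_mul, norm_pow, Complex.norm_real, Real.norm_eq_abs, norm_mul, Complex.norm_real,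
        Real.norm_of_nonneg (by positivity : 0 ≤ 1 / q), Complex.norm_ofNat, ← hyq, hA₂, add_mul]
      refine add_le_add ?_ (mul_le_mul_of_nonneg_right hPM (by positivity))
      have : |x t| ^ 2 ≤ (A * y) ^ 2 := pow_le_pow_left₀ (abs_nonneg _) hxt 2
      calc ‖κ‖ * |x t| ^ 2 / 2 ≤ R * (A * y) ^ 2 / 2 := by gcongr
        _ = _ := by ring
    have hE : ‖κ * (Real.log (1 + x t) : ℝ) - P * (c : ℝ) - (κ * (x t : ℂ) + (-(κ * (x t : ℂ) ^ 2 / 2) - P * ((1 / q : ℝ) : ℂ)))‖ ≤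
        A₀ * (0 ^ 2 + y ^ 3) := by
      have e : κ * (Real.log (1 + x t) : ℝ) - P * (c : ℝ) - (κ * (x t : ℂ) + (-(κ * (x t : ℂ) ^ 2 / 2) - P * ((1 / q : ℝ) : ℂ))) =
          κ * ((Real.log (1 + x t) - (x t - x t ^ 2 / 2) : ℝ) : ℂ) - P * ((c - 1 / q : ℝ) : ℂ) := by
        push_cast; ring
      rw [e]
      refine (norm_sub_le _ _).trans ?_
      rw [norm_mul, norm_mul, Complex.norm_real, Complex.norm_real, Real.norm_eq_abs, Real.norm_eq_abs]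
      have h3 : |x t| ^ 3 ≤ (A * y) ^ 3 := pow_le_pow_left₀ (abs_nonneg _) hxt 3
      have h4 : ‖κ‖ * |Real.log (1 + x t) - (x t - x t ^ 2 / 2)| ≤ R * (2 * (A * y) ^ 3) :=
        mul_le_mul hκ (hlog.trans (by linarith)) (abs_nonneg _) hR
      have h5 : ‖P‖ * |c - 1 / q| ≤ M * (2 * y ^ 3) := by
        refine mul_le_mul hPM (hcq.trans ?_) (abs_nonneg _) hM0
        rw [← hyq]
        have : (y ^ 2) ^ 2 ≤ y ^ 3 := by
          have e6 : (y ^ 2) ^ 2 = y ^ 3 * y := by ring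
          rw [e6]
          exact mul_le_of_le_one_right (by positivity) hy1
        linarith
      refine (add_le_add h4 h5).trans ?_
      have h6 : 0 ≤ (A₁ + A₂) * y ^ 3 := by positivity
      have e7 : A₀ * (0 ^ 2 + y ^ 3) = R * (2 * (A * y) ^ 3) + M * (2 * y ^ 3) + (A₁ + A₂) * y ^ 3 := by
        rw [hA₀]; ring
      rw [e7]
      linarith
    have hz2 : ‖κ * (Real.log (1 + x t) : ℝ) - P * (c : ℝ)‖ ≤ A₀ * y := by
      have e9 : κ * (Real.log (1 + x t) : ℝ) - P * (c : ℝ) = κ * ((Real.log (1 + x t) - (x t - x t ^ 2 / 2) : ℝ) : ℂ) -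
          P * ((c - 1 / q : ℝ) : ℂ) + (κ * (x t : ℂ) + (-(κ * (x t : ℂ) ^ 2 / 2) - P * ((1 / q : ℝ) : ℂ))) := by
        push_cast; ring
      rw [e9]
      have h3 : |x t| ^ 3 ≤ (A * y) ^ 3 := pow_le_pow_left₀ (abs_nonneg _) hxt 3
      have h4 : ‖κ‖ * |Real.log (1 + x t) - (x t - x t ^ 2 / 2)| ≤ R * (2 * (A * y) ^ 3) :=
        mul_le_mul hκ (hlog.trans (by linarith)) (abs_nonneg _) hR
      have h5 : ‖P‖ * |c - 1 / q| ≤ M * (2 * (y ^ 2) ^ 2) := by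
        refine mul_le_mul hPM (hcq.trans ?_) (abs_nonneg _) hM0
        rw [← hyq]
      have h6 : ‖κ * ((Real.log (1 + x t) - (x t - x t ^ 2 / 2) : ℝ) : ℂ) - P * ((c - 1 / q : ℝ) : ℂ)‖ ≤
          R * (2 * (A * y) ^ 3) + M * (2 * (y ^ 2) ^ 2) := by
        refine (norm_sub_le _ _).trans ?_
        rw [norm_mul, norm_mul, Complex.norm_real, Complex.norm_real, Real.norm_eq_abs, Real.norm_eq_abs]
        exact add_le_add h4 h5
      refine (norm_add_le _ _).trans ((add_le_add h6 ((norm_add_le _ _).trans (add_le_add h1 h2))).trans ?_)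
      have y2 : y ^ 2 ≤ y := by
        rw [sq]; exact mul_le_of_le_one_right hy0.le hy1
      have y3 : y ^ 3 ≤ y := by
        have : y ^ 3 = y * (y ^ 2) := by ring
        rw [this]
        exact mul_le_of_le_one_right hy0.le (pow_le_one₀ hy0.le hy1)
      have y4 : (y ^ 2) ^ 2 ≤ y := by
        have : (y ^ 2) ^ 2 = y * y ^ 3 := by ring
        rw [this]
        exact mul_le_of_le_one_right hy0.le (pow_le_one₀ hy0.le hy1)
      have g1 : R * (2 * (A * y) ^ 3) ≤ 2 * R * A ^ 3 * y := by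
        have : R * (2 * (A * y) ^ 3) = 2 * R * A ^ 3 * y ^ 3 := by ring
        rw [this]
        exact mul_le_mul_of_nonneg_left y3 (by positivity)
      have g2 : M * (2 * (y ^ 2) ^ 2) ≤ 2 * M * y := by
        have : M * (2 * (y ^ 2) ^ 2) = 2 * M * (y ^ 2) ^ 2 := by ring
        rw [this]
        exact mul_le_mul_of_nonneg_left y4 (by positivity)
      have g3 : A₂ * y ^ 2 ≤ A₂ * y := mul_le_mul_of_nonneg_left y2 hA₂0
      have e10 : A₀ * y = 2 * R * A ^ 3 * y + 2 * M * y + A₁ * y + A₂ * y := by rw [hA₀]; ring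
      rw [e10]
      linarith
    have := exp_expand hA₀0 hA₁0 hA₂0 le_rfl zero_le_one hy0.le hy1 hz2 hE h1 h2
    rw [← hB] at this
    refine this.trans (le_of_eq ?_)
    ring
  have hmain : avg Finset.univ (fun t => (1 + κ * (x t : ℂ) + ((-(κ * (x t : ℂ) ^ 2 / 2) - P * ((1 / q : ℝ) : ℂ)) +
      (κ * (x t : ℂ)) ^ 2 / 2))) - 1 =
      κ * (((∑ t, x t) / Fintype.card α - μ₁ / q : ℝ) : ℂ) +
      (κ ^ 2 - κ) / 2 * (((∑ t, x t ^ 2) / Fintype.card α - 1 / q : ℝ) : ℂ) := by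
    have hcardC : ((Fintype.card α : ℕ) : ℂ) ≠ 0 := by exact_mod_cast hcard.ne'
    have hqC : (q : ℂ) ≠ 0 := by exact_mod_cast hq0.ne'
    unfold avg
    have g2 : ∀ t, (1 + κ * (x t : ℂ) + ((-(κ * (x t : ℂ) ^ 2 / 2) - P * ((1 / q : ℝ) : ℂ)) + (κ * (x t : ℂ)) ^ 2 / 2)) =
        (1 - P * ((1 / q : ℝ) : ℂ)) + κ * (x t : ℂ) + (κ ^ 2 - κ) / 2 * (x t : ℂ) ^ 2 := by intro t; ring
    rw [Finset.sum_congr rfl fun t _ => g2 t, Finset.sum_add_distrib, Finset.sum_add_distrib, Finset.sum_const,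
      nsmul_eq_mul, ← Finset.mul_sum, ← Finset.mul_sum, Finset.card_univ, hP]
    push_cast
    field_simp
    ring
  have hfin : ‖avg Finset.univ (fun t => (1 + κ * (x t : ℂ) + ((-(κ * (x t : ℂ) ^ 2 / 2) - P * ((1 / q : ℝ) : ℂ)) +
      (κ * (x t : ℂ)) ^ 2 / 2))) - 1‖ ≤ (R * C₁ + (R ^ 2 + R) / 2 * C₁) * y ^ 3 := by
    rw [hmain]
    refine (norm_add_le _ _).trans ?_
    rw [norm_mul, norm_mul, Complex.norm_real, Complex.norm_real, Real.norm_eq_abs, Real.norm_eq_abs, add_mul]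
    refine add_le_add ?_ ?_
    · rw [mul_assoc]
      exact mul_le_mul hκ hx1 (abs_nonneg _) hR
    · rw [mul_assoc ((R ^ 2 + R) / 2)]
      refine mul_le_mul ?_ hx2 (abs_nonneg _) (by positivity)
      rw [norm_div, Complex.norm_ofNat]
      have : ‖κ ^ 2 - κ‖ ≤ R ^ 2 + R := by
        refine (norm_sub_le _ _).trans ?_
        rw [norm_pow]
        gcongr
      linarith
  obtain ⟨mA, hmA⟩ : ∃ z, z = avg Finset.univ (fun t => (1 + κ * (x t : ℂ) + ((-(κ * (x t : ℂ) ^ 2 / 2) -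
      P * ((1 / q : ℝ) : ℂ)) + (κ * (x t : ℂ)) ^ 2 / 2))) := ⟨_, rfl⟩
  rw [← hmA] at hfin
  have hdiff : ‖avg Finset.univ (fun t => Complex.exp (κ * (Real.log (1 + x t) : ℝ) - P * (c : ℝ))) - mA‖ ≤ B * y ^ 3 := by
    rw [hmA, avg_sub']
    exact norm_avg_le _ _ _ (by positivity) fun t _ => hpt t
  have e : avg Finset.univ (fun t => Complex.exp (κ * (Real.log (1 + x t) : ℝ) - P * (c : ℝ))) - 1 =
      (avg Finset.univ (fun t => Complex.exp (κ * (Real.log (1 + x t) : ℝ) - P * (c : ℝ))) - mA) + (mA - 1) := by ring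
  rw [e]
  refine (norm_add_le _ _).trans ((add_le_add hdiff hfin).trans (le_of_eq ?_))
  rw [hyq3]
  ring

end Run7.h9.BS
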