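import Pool.Agent.Run7.h876.HY.Defs
import Pool.Agent.Run7.h876.MM.Part2

/-!
# The products of Birch and Swinnerton-Dyer in families of curves: definitions
-/

set_option autoImplicit false

namespace Run7.h9.BS

open NumberField IsDedekindDomain Polynomial MeasureTheory
open Run7.h876.MM (nv SZ)
open Run7.h876.EN (box tuple)
open Run7.h876.HY (GoodAt)

section
variable {K : Type} [Field K] [NumberField K]

/-- The number of the points over the residue field of `v` of the smooth projective model of the
reduction of `y² = f(x)`, `f` monic: the points of the affine curve and one point at infinity if the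
degree of `f` is odd, two if it is even. -/
noncomputable def points (f : (𝓞 K)[X]) (v : HeightOneSpectrum (𝓞 K)) : ℕ :=
  Nat.card {P : (𝓞 K ⧸ v.asIdeal) × (𝓞 K ⧸ v.asIdeal) //
    P.2 ^ 2 = (f.map (Ideal.Quotient.mk v.asIdeal)).eval P.1} + if Odd f.natDegree then 1 else 2

open Classical in
/-- The product of Birch and Swinnerton-Dyer: the product of `#C(k_v) / Nv` over the places of good
reduction (`GoodAt`) with `Nv ≤ Z`. -/
noncomputable def bsd (Z : ℕ) (f : (𝓞 K)[X]) : ℝ :=
  ∏ v ∈ SZ K Z, if GoodAt f v then (points f v : ℝ) / nv v else 1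

variable (K) in
/-- The part `Nv ≤ Z` of the Euler product of the zeta function of `K` at `1`. -/
noncomputable def zetaProd (Z : ℕ) : ℝ := ∏ v ∈ SZ K Z, (1 - 1 / (nv v : ℝ))⁻¹

variable {ι : Type} [Fintype ι] [DecidableEq ι] {J : Type} [Fintype J] [DecidableEq J]

open Classical in
/-- The proportion of the tuples `t` in `G` with coordinates at most `H j` in absolute value which have the
property `P`. -/
noncomputable def prop (ω : Module.Basis ι ℤ (𝓞 K)) (H : J → ℕ) (G : Set (J → 𝓞 K)) (P : (J → 𝓞 K) → Prop) : ℝ :=
  (((box ι H).filter fun c => tuple ω c ∈ G ∧ P (tuple ω c)).card : ℝ) /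
    (((box ι H).filter fun c => tuple ω c ∈ G).card : ℝ)

end

/-- The distribution function of the normal law with mean `0` and variance `1`. -/
noncomputable def Phi (a : ℝ) : ℝ := (ProbabilityTheory.gaussianReal 0 1).real (Set.Iic a)

end Run7.h9.BS
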