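import Pool.Agent.Run7.h9.BS.Abs
import Pool.Agent.Run7.h9.BS.Defs

/-!
# The central limit theorem and the exceptional set
-/

set_option autoImplicit false
set_option linter.unusedSectionVars false

namespace Run7.h9.BS

open NumberField IsDedekindDomain Finset Filter Topology MeasureTheory
open Run7.h876.MM (nv kv two_le_nv nv_pos avg norm_avg_le tail_bound tail_small mult_of tprod_ne hasProd_zeta SZ mem_SZ
  instFintypeKv)
open Run7.h876.EN

section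
variable {K : Type} [Field K] [NumberField K]
variable {ι : Type} [Fintype ι] [DecidableEq ι] {J : Type} [Fintype J] [DecidableEq J]

/-- The distribution of a real function over a finite set. -/
noncomputable def emp {α : Type} (S : Finset α) (X : α → ℝ) : Measure ℝ :=
  ∑ c ∈ S, ENNReal.ofReal ((S.card : ℝ)⁻¹) • Measure.dirac (X c)

theorem emp_prob {α : Type} (S : Finset α) (hS : S.Nonempty) (X : α → ℝ) : IsProbabilityMeasure (emp S X) := by
  constructor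
  have h : (0 : ℝ) < S.card := by exact_mod_cast hS.card_pos
  unfold emp
  rw [Measure.finsetSum_apply]
  simp only [Measure.smul_apply, measure_univ, smul_eq_mul, mul_one, Finset.sum_const, nsmul_eq_mul]
  rw [← ENNReal.ofReal_natCast, ← ENNReal.ofReal_mul h.le, mul_inv_cancel₀ h.ne', ENNReal.ofReal_one]

theorem emp_Iic {α : Type} (S : Finset α) (X : α → ℝ) (a : ℝ) [DecidablePred fun c => X c ≤ a] :
    (emp S X).real (Set.Iic a) = ((S.filter fun c => X c ≤ a).card : ℝ) / S.card := by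
  have h : (0 : ℝ) ≤ (S.card : ℝ)⁻¹ := by positivity
  unfold Measure.real emp
  rw [Measure.finsetSum_apply, ENNReal.toReal_sum (fun c _ => by
    rw [Measure.smul_apply, smul_eq_mul]
    exact ENNReal.mul_ne_top ENNReal.ofReal_ne_top (measure_ne_top _ _))]
  have e : ∀ c ∈ S, ((ENNReal.ofReal ((S.card : ℝ)⁻¹) • Measure.dirac (X c)) (Set.Iic a)).toReal =
      if X c ≤ a then (S.card : ℝ)⁻¹ else 0 := by
    intro c _
    rw [Measure.smul_apply, Measure.dirac_apply' _ measurableSet_Iic, smul_eq_mul, ENNReal.toReal_mul,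
      ENNReal.toReal_ofReal h]
    by_cases hc : X c ≤ a
    · rw [if_pos hc, Set.indicator_of_mem (by exact hc)]
      simp
    · rw [if_neg hc, Set.indicator_of_notMem (by exact hc)]
      simp
  rw [Finset.sum_congr rfl e, ← Finset.sum_filter, Finset.sum_const, nsmul_eq_mul, div_eq_mul_inv]

theorem emp_charFun {α : Type} (S : Finset α) (X : α → ℝ) (u : ℝ) :
    charFun (emp S X) u = (∑ c ∈ S, Complex.exp (u * X c * Complex.I)) / S.card := by
  have h : (0 : ℝ) ≤ (S.card : ℝ)⁻¹ := by positivity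
  rw [charFun_apply_real]
  unfold emp
  rw [integral_finsetSum_measure (fun c _ => by
    refine Integrable.smul_measure ?_ ENNReal.ofReal_ne_top
    exact (integrable_dirac (by simp)))]
  simp only [integral_smul_measure, integral_dirac, ENNReal.toReal_ofReal h]
  rw [← Finset.smul_sum, div_eq_inv_mul]
  rw [Complex.real_smul]
  push_cast
  rfl

namespace LocalData
variable (𝓛 : LocalData K J) (ω : Module.Basis ι ℤ (𝓞 K)) {G : Set (J → 𝓞 K)} {Cb : ℝ}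

include 𝓛 in
theorem nonempty_of (hCb : 0 ≤ Cb) (hG : Thin ω G Cb) {θ : ℝ} (hθ : 0 < θ) :
    ∃ Z₀ : ℕ, ∀ Z : ℕ, Z₀ ≤ Z → ∀ H : J → ℕ, (∀ j, Real.exp ((Z : ℝ) ^ (1 + θ)) ≤ H j) →
      ∀ [DecidablePred fun c => tuple ω c ∈ G], ((box ι H).filter fun c => tuple ω c ∈ G).Nonempty := by
  classical
  obtain ⟨Z₀, hZ₀⟩ := 𝓛.modGauss ω hCb hG (R := 0) le_rfl hθ (ε := 1 / 2) (by norm_num)
  refine ⟨Z₀, fun Z hZ H hH _ => ?_⟩
  by_contra hne
  rw [Finset.not_nonempty_iff_eq_empty] at hne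
  have h := hZ₀ Z hZ H hH 0 (by simp)
  rw [𝓛.Psi_zero] at h
  have e : mean ω H G (fun t => Complex.exp (0 * (𝓛.W Z t : ℂ))) = 0 := by
    unfold mean
    convert div_zero _
    rw [Nat.cast_eq_zero, Finset.card_eq_zero]
    convert hne
  rw [e, zero_mul, zero_sub, norm_neg, norm_one] at h
  norm_num at h

/-- **The central limit theorem.** -/
theorem clt (hCb : 0 ≤ Cb) (hG : Thin ω G Cb) {θ : ℝ} (hθ : 0 < θ) (a : ℝ) {ε : ℝ} (hε : 0 < ε) :
    ∃ Z₀ : ℕ, ∀ Z : ℕ, Z₀ ≤ Z → ∀ H : J → ℕ, (∀ j, Real.exp ((Z : ℝ) ^ (1 + θ)) ≤ H j) →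
      |prop ω H G (fun t => 𝓛.W Z t ≤ 𝓛.m * VZ K Z + a * Real.sqrt (𝓛.D * VZ K Z)) - Phi a| ≤ ε := by
  classical
  by_contra hcon
  push Not at hcon
  obtain ⟨Z₁, hZ₁⟩ := 𝓛.nonempty_of ω hCb hG hθ
  obtain ⟨Z₂, hZ₂⟩ := Filter.eventually_atTop.1 ((VZ_atTop (K := K)).eventually_ge_atTop 1)
  choose Zn hZn Hn hHn hbad using fun n : ℕ => hcon (max n (max Z₁ Z₂))
  have hZnn : ∀ n, n ≤ Zn n := fun n => (le_max_left _ _).trans (hZn n)
  have hZn1 : ∀ n, Z₁ ≤ Zn n := fun n => ((le_max_left _ _).trans (le_max_right _ _)).trans (hZn n)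
  have hV1 : ∀ n, 1 ≤ VZ K (Zn n) := fun n => hZ₂ _ (((le_max_right _ _).trans (le_max_right _ _)).trans (hZn n))
  have hD := 𝓛.D_pos
  set V : ℕ → ℝ := fun n => VZ K (Zn n) with hV
  have hVt : Tendsto V atTop atTop := VZ_atTop.comp (tendsto_atTop_mono hZnn tendsto_id)
  set S : ℕ → Finset (J × ι → ℤ) := fun n => (box ι (Hn n)).filter fun c => tuple ω c ∈ G with hS
  have hSne : ∀ n, (S n).Nonempty := fun n => hZ₁ (Zn n) (hZn1 n) (Hn n) (hHn n)
  set X : ∀ n : ℕ, (J × ι → ℤ) → ℝ := fun n c => (𝓛.W (Zn n) (tuple ω c) - 𝓛.m * V n) / Real.sqrt (𝓛.D * V n) with hX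
  set μ : ℕ → ProbabilityMeasure ℝ := fun n => ⟨emp (S n) (X n), emp_prob _ (hSne n) _⟩ with hμ
  set μ₀ : ProbabilityMeasure ℝ := ⟨ProbabilityTheory.gaussianReal 0 1, inferInstance⟩ with hμ₀
  have hconv : Tendsto μ atTop (𝓝 μ₀) := by
    refine ProbabilityMeasure.tendsto_of_tendsto_charFun fun u => ?_
    show Tendsto (fun n => charFun (emp (S n) (X n)) u) atTop (𝓝 (charFun (ProbabilityTheory.gaussianReal 0 1) u))
    rw [ProbabilityTheory.charFun_gaussianReal]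
    set κ : ℕ → ℂ := fun n => Complex.I * ((u / Real.sqrt (𝓛.D * V n) : ℝ) : ℂ) with hκ
    have hκt : Tendsto κ atTop (𝓝 0) := by
      have h1 : Tendsto (fun n => Real.sqrt (𝓛.D * V n)) atTop atTop :=
        Real.tendsto_sqrt_atTop.comp (hVt.const_mul_atTop hD)
      have h2 : Tendsto (fun n => u / Real.sqrt (𝓛.D * V n)) atTop (𝓝 0) := h1.const_div_atTop u
      have h3 := ((Complex.continuous_ofReal.tendsto 0).comp h2).const_mul Complex.I
      rw [Complex.ofReal_zero, mul_zero] at h3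
      exact h3
    -- the normalised mean tends to one
    set A : ℕ → ℂ := fun n => mean ω (Hn n) G (fun t => Complex.exp (κ n * 𝓛.W (Zn n) t)) *
      Complex.exp (-((κ n * 𝓛.m + κ n ^ 2 * 𝓛.D / 2) * VZ K (Zn n))) with hA
    have hA1 : Tendsto A atTop (𝓝 1) := by
      have hPsi : Tendsto (fun n => 𝓛.Psi (κ n)) atTop (𝓝 1) := by
        have := (𝓛.Psi_diff.continuous.tendsto 0).comp hκt
        rw [𝓛.Psi_zero] at this
        exact this
      have hdiff : Tendsto (fun n => A n - 𝓛.Psi (κ n)) atTop (𝓝 0) := by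
        rw [Metric.tendsto_atTop]
        intro δ hδ
        obtain ⟨Z₃, hZ₃⟩ := 𝓛.modGauss ω hCb hG (R := 1) zero_le_one hθ (ε := δ / 2) (by linarith)
        obtain ⟨N, hN⟩ := Filter.eventually_atTop.1 (hκt.eventually (Metric.ball_mem_nhds (0 : ℂ) one_pos))
        refine ⟨max N Z₃, fun n hn => ?_⟩
        rw [dist_zero_right]
        have h1 := hN n ((le_max_left _ _).trans hn)
        rw [dist_zero_right] at h1
        have h2 := hZ₃ (Zn n) (((le_max_right _ _).trans hn).trans (hZnn n)) (Hn n) (hHn n) (κ n) h1.le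
        linarith
      have := hdiff.add hPsi
      simpa using this
    have hfin : ∀ n, charFun (emp (S n) (X n)) u = A n * Complex.exp (-(u ^ 2 / 2)) := by
      intro n
      have hVn : 0 < V n := by have := hV1 n; show 0 < VZ K (Zn n); linarith
      have hDV : 0 < 𝓛.D * V n := by positivity
      have hsq : Real.sqrt (𝓛.D * V n) ≠ 0 := (Real.sqrt_pos.2 hDV).ne'
      have hsq2 : Real.sqrt (𝓛.D * V n) ^ 2 = 𝓛.D * V n := Real.sq_sqrt hDV.le
      rw [emp_charFun]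
      have e1 : ∀ c, Complex.exp (u * (X n c : ℂ) * Complex.I) =
          Complex.exp (κ n * 𝓛.W (Zn n) (tuple ω c)) * Complex.exp (-(κ n * (𝓛.m * V n))) := by
        intro c
        rw [← Complex.exp_add]
        congr 1
        simp only [hX, hκ]
        push_cast
        ring
      have hk2 : κ n ^ 2 * 𝓛.D * V n = -(u : ℂ) ^ 2 := by
        simp only [hκ]
        rw [mul_pow, Complex.I_sq]
        have e3 : ((u / Real.sqrt (𝓛.D * V n) : ℝ) : ℂ) ^ 2 = ((u ^ 2 / (𝓛.D * V n) : ℝ) : ℂ) := by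
          rw [← Complex.ofReal_pow, div_pow, hsq2]
        rw [e3]
        have hD' : (𝓛.D : ℂ) ≠ 0 := by exact_mod_cast hD.ne'
        have hV' : (V n : ℂ) ≠ 0 := by exact_mod_cast hVn.ne'
        push_cast
        field_simp
      have e2 : Complex.exp (-((κ n * 𝓛.m + κ n ^ 2 * 𝓛.D / 2) * VZ K (Zn n))) * Complex.exp (-((u : ℂ) ^ 2 / 2)) =
          Complex.exp (-(κ n * (𝓛.m * V n))) := by
        rw [← Complex.exp_add]
        congr 1
        have : (VZ K (Zn n) : ℂ) = V n := rfl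
        rw [this]
        linear_combination (-(1 : ℂ) / 2) * hk2
      simp only [hA]
      rw [mul_assoc, e2]
      unfold mean
      simp only [e1]
      rw [← Finset.sum_mul]
      ring
    have h4 := hA1.mul_const (Complex.exp (-((u : ℂ) ^ 2 / 2)))
    rw [one_mul] at h4
    have e5 : Complex.exp (u * ((0 : ℝ) : ℂ) * Complex.I - ((1 : NNReal) : ℝ) * (u : ℂ) ^ 2 / 2) = Complex.exp (-((u : ℂ) ^ 2 / 2)) := by
      congr 1
      push_cast
      ring
    refine (h4.congr fun n => (hfin n).symm).trans ?_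
    rw [← e5]
  have hfr : (μ₀ : Measure ℝ) (frontier (Set.Iic a)) = 0 := by
    rw [frontier_Iic]
    show (ProbabilityTheory.gaussianReal 0 1) {a} = 0
    have := ProbabilityTheory.nullSingletonClass_gaussianReal (μ := 0) (v := 1) one_ne_zero
    exact measure_singleton a
  have hport := ProbabilityMeasure.tendsto_measure_of_null_frontier_of_tendsto' hconv hfr
  have hport2 : Tendsto (fun n => (emp (S n) (X n)).real (Set.Iic a)) atTop (𝓝 (Phi a)) := by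
    have := (ENNReal.tendsto_toReal (measure_ne_top (μ₀ : Measure ℝ) (Set.Iic a))).comp hport
    exact this
  have hev := (Metric.tendsto_atTop.1 hport2 ε hε)
  obtain ⟨N, hN⟩ := hev
  have h1 := hN N le_rfl
  rw [Real.dist_eq, emp_Iic] at h1
  have h2 := hbad N
  have hVn : 0 < V N := by have := hV1 N; show 0 < VZ K (Zn N); linarith
  have hs : 0 < Real.sqrt (𝓛.D * V N) := Real.sqrt_pos.2 (by positivity)
  have e : prop ω (Hn N) G (fun t => 𝓛.W (Zn N) t ≤ 𝓛.m * VZ K (Zn N) + a * Real.sqrt (𝓛.D * VZ K (Zn N))) =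
      (((S N).filter fun c => X N c ≤ a).card : ℝ) / (S N).card := by
    unfold prop
    congr 2
    simp only [hS, Finset.filter_filter, hX]
    congr 1
    refine Finset.filter_congr fun c _ => and_congr_right fun _ => ?_
    rw [div_le_iff₀ hs, sub_le_iff_le_add, add_comm]
  rw [e] at h2
  linarith

open Classical in
/-- Markov's inequality. -/
theorem markov (H : J → ℕ) (Y : (J → 𝓞 K) → ℝ) (x : ℝ) :
    prop ω H G (fun t => x ≤ Y t) * Real.exp x ≤ ‖mean ω H G (fun t => Complex.exp (Y t))‖ := by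
  have e : mean ω H G (fun t => Complex.exp (Y t)) = (((∑ c ∈ (box ι H).filter fun c => tuple ω c ∈ G, Real.exp (Y (tuple ω c))) /
      (((box ι H).filter fun c => tuple ω c ∈ G).card : ℝ) : ℝ) : ℂ) := by
    unfold mean
    push_cast
    rfl
  rw [e, Complex.norm_real, Real.norm_of_nonneg (by positivity)]
  unfold prop
  rw [div_mul_eq_mul_div]
  refine div_le_div_of_nonneg_right ?_ (by positivity)
  rw [← Finset.filter_filter, ← smul_eq_mul (α := ℝ), Nat.cast_smul_eq_nsmul, ← Finset.sum_const]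
  calc _ ≤ ∑ c ∈ ((box ι H).filter fun c => tuple ω c ∈ G).filter (fun c => x ≤ Y (tuple ω c)), Real.exp (Y (tuple ω c)) :=
        Finset.sum_le_sum fun c hc => Real.exp_le_exp.2 (Finset.mem_filter.1 hc).2
    _ ≤ _ := Finset.sum_le_sum_of_subset_of_nonneg (Finset.filter_subset _ _) fun c _ _ => (Real.exp_pos _).le

theorem tail_aux (hCb : 0 ≤ Cb) (hG : Thin ω G Cb) {θ : ℝ} (hθ : 0 < θ) (κ : ℝ) :
    ∃ C : ℝ, 0 < C ∧ ∃ Z₀ : ℕ, ∀ Z : ℕ, Z₀ ≤ Z → ∀ H : J → ℕ, (∀ j, Real.exp ((Z : ℝ) ^ (1 + θ)) ≤ H j) →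
      prop ω H G (fun t => κ ^ 2 * 𝓛.D * VZ K Z ≤ κ * (𝓛.W Z t - 𝓛.m * VZ K Z)) ≤ C * Real.exp (-(κ ^ 2 * 𝓛.D / 2 * VZ K Z)) := by
  obtain ⟨Z₀, hZ₀⟩ := 𝓛.modGauss ω hCb hG (R := |κ|) (abs_nonneg _) hθ (ε := 1) one_pos
  refine ⟨‖𝓛.Psi κ‖ + 1, by positivity, Z₀, fun Z hZ H hH => ?_⟩
  have h1 := hZ₀ Z hZ H hH κ (by rw [Complex.norm_real, Real.norm_eq_abs])
  have h2 := markov (G := G) ω H (fun t => κ * 𝓛.W Z t) (κ ^ 2 * 𝓛.D * VZ K Z + κ * 𝓛.m * VZ K Z)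
  have e1 : (fun t => κ ^ 2 * 𝓛.D * VZ K Z ≤ κ * (𝓛.W Z t - 𝓛.m * VZ K Z)) =
      fun t => κ ^ 2 * 𝓛.D * VZ K Z + κ * 𝓛.m * VZ K Z ≤ κ * 𝓛.W Z t := by
    funext t
    rw [mul_sub, le_sub_iff_add_le, mul_assoc κ]
  rw [e1]
  set E := mean ω H G (fun t => Complex.exp ((κ : ℂ) * 𝓛.W Z t)) with hE
  have e2 : mean ω H G (fun t => Complex.exp ((κ * 𝓛.W Z t : ℝ) : ℂ)) = E := by
    rw [hE]; congr 1; funext t; push_cast; rfl
  rw [e2] at h2
  set V := VZ K Z with hV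
  have e3 : Complex.exp (-(((κ : ℂ) * 𝓛.m + (κ : ℂ) ^ 2 * 𝓛.D / 2) * V)) =
      ((Real.exp (-((κ * 𝓛.m + κ ^ 2 * 𝓛.D / 2) * V)) : ℝ) : ℂ) := by push_cast; rfl
  rw [e3] at h1
  have h3 : ‖E‖ * Real.exp (-((κ * 𝓛.m + κ ^ 2 * 𝓛.D / 2) * V)) ≤ ‖𝓛.Psi κ‖ + 1 := by
    have h4 := norm_sub_norm_le (E * ((Real.exp (-((κ * 𝓛.m + κ ^ 2 * 𝓛.D / 2) * V)) : ℝ) : ℂ)) (𝓛.Psi κ)
    rw [norm_mul, Complex.norm_real, Real.norm_of_nonneg (Real.exp_pos _).le] at h4
    linarith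
  set P := prop ω H G (fun t => κ ^ 2 * 𝓛.D * V + κ * 𝓛.m * V ≤ κ * 𝓛.W Z t) with hP
  have h5 : P * Real.exp (κ ^ 2 * 𝓛.D * V + κ * 𝓛.m * V) * Real.exp (-((κ * 𝓛.m + κ ^ 2 * 𝓛.D / 2) * V)) ≤
      ‖𝓛.Psi κ‖ + 1 := (mul_le_mul_of_nonneg_right h2 (Real.exp_pos _).le).trans h3
  rw [mul_assoc, ← Real.exp_add] at h5
  have e4 : κ ^ 2 * 𝓛.D * V + κ * 𝓛.m * V + -((κ * 𝓛.m + κ ^ 2 * 𝓛.D / 2) * V) = κ ^ 2 * 𝓛.D / 2 * V := by ring
  rw [e4] at h5
  rw [Real.exp_neg, ← div_eq_mul_inv, le_div_iff₀ (Real.exp_pos _)]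
  exact h5

theorem prop_nonneg (H : J → ℕ) (P : (J → 𝓞 K) → Prop) : 0 ≤ prop ω H G P := by
  unfold prop; positivity

theorem prop_mono (H : J → ℕ) {P Q : (J → 𝓞 K) → Prop} (h : ∀ t, P t → Q t) : prop ω H G P ≤ prop ω H G Q := by
  classical
  unfold prop
  refine div_le_div_of_nonneg_right ?_ (by positivity)
  exact_mod_cast Finset.card_le_card (fun c hc => by
    rw [Finset.mem_filter] at hc ⊢
    exact ⟨hc.1, hc.2.1, h _ hc.2.2⟩)

theorem prop_or (H : J → ℕ) (P Q : (J → 𝓞 K) → Prop) :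
    prop ω H G (fun t => P t ∨ Q t) ≤ prop ω H G P + prop ω H G Q := by
  classical
  unfold prop
  rw [← add_div]
  refine div_le_div_of_nonneg_right ?_ (by positivity)
  have h1 : (((box ι H).filter fun c => tuple ω c ∈ G ∧ (fun t => P t ∨ Q t) (tuple ω c)).card : ℝ) ≤
      ((((box ι H).filter fun c => tuple ω c ∈ G ∧ P (tuple ω c)).card +
      ((box ι H).filter fun c => tuple ω c ∈ G ∧ Q (tuple ω c)).card : ℕ) : ℝ) := by
    refine Nat.cast_le.2 ((Finset.card_le_card fun c hc => ?_).trans (Finset.card_union_le _ _))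
    rw [Finset.mem_union, Finset.mem_filter, Finset.mem_filter]
    rw [Finset.mem_filter] at hc
    tauto
  push_cast at h1
  refine (le_of_eq ?_).trans h1
  congr

/-- **The exceptional set.** -/
theorem tail (hCb : 0 ≤ Cb) (hG : Thin ω G Cb) {θ : ℝ} (hθ : 0 < θ) {a : ℝ} (ha : 0 < a) :
    ∃ C : ℝ, 0 < C ∧ ∃ Z₀ : ℕ, ∀ Z : ℕ, Z₀ ≤ Z → ∀ H : J → ℕ, (∀ j, Real.exp ((Z : ℝ) ^ (1 + θ)) ≤ H j) →
      prop ω H G (fun t => a * VZ K Z ≤ |𝓛.W Z t - 𝓛.m * VZ K Z|) ≤ C * Real.exp (-(a ^ 2 / (2 * 𝓛.D) * VZ K Z)) := by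
  have hD := 𝓛.D_pos
  obtain ⟨C₁, hC₁, Z₁, h₁⟩ := 𝓛.tail_aux ω hCb hG hθ (a / 𝓛.D)
  obtain ⟨C₂, hC₂, Z₂, h₂⟩ := 𝓛.tail_aux ω hCb hG hθ (-(a / 𝓛.D))
  refine ⟨C₁ + C₂, by positivity, max Z₁ Z₂, fun Z hZ H hH => ?_⟩
  have g1 := h₁ Z ((le_max_left _ _).trans hZ) H hH
  have g2 := h₂ Z ((le_max_right _ _).trans hZ) H hH
  have e1 : (a / 𝓛.D) ^ 2 * 𝓛.D / 2 * VZ K Z = a ^ 2 / (2 * 𝓛.D) * VZ K Z := by field_simp
  have e2 : (-(a / 𝓛.D)) ^ 2 * 𝓛.D / 2 * VZ K Z = a ^ 2 / (2 * 𝓛.D) * VZ K Z := by field_simp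
  rw [e1] at g1
  rw [e2] at g2
  refine (prop_mono ω H (Q := fun t => ((a / 𝓛.D) ^ 2 * 𝓛.D * VZ K Z ≤ (a / 𝓛.D) * (𝓛.W Z t - 𝓛.m * VZ K Z)) ∨
    ((-(a / 𝓛.D)) ^ 2 * 𝓛.D * VZ K Z ≤ (-(a / 𝓛.D)) * (𝓛.W Z t - 𝓛.m * VZ K Z))) fun t ht => ?_).trans
    ((prop_or ω H _ _).trans ?_)
  · have e3 : (a / 𝓛.D) ^ 2 * 𝓛.D * VZ K Z = (a / 𝓛.D) * (a * VZ K Z) := by field_simp
    have e4 : (-(a / 𝓛.D)) ^ 2 * 𝓛.D * VZ K Z = (a / 𝓛.D) * (a * VZ K Z) := by field_simp
    have hpos : 0 < a / 𝓛.D := by positivity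
    rcases le_abs.1 ht with h | h
    · left
      rw [e3]
      exact mul_le_mul_of_nonneg_left h hpos.le
    · right
      rw [e4]
      have := mul_le_mul_of_nonneg_left h hpos.le
      linarith
  · rw [add_mul]
    exact add_le_add g1 g2

end LocalData

end

end Run7.h9.BS
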