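import Pool.Agent.Run7.h876.HY.Main

/-!
# Mod-Gaussian convergence for sums of local functions over boxes of integers of a number field

`lam v` are real functions of the residues at the places of a number field, uniformly bounded, whose
local exponential moments are `exp((κ m + κ² D / 2) cv v)` up to a summable error, `cv v = -log(1 - 1/Nv)`.
-/

set_option autoImplicit false
set_option linter.unusedSectionVars false

namespace Run7.h9.BS

open NumberField IsDedekindDomain Finset Filter Topology MeasureTheory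
open Run7.h876.MM (nv kv two_le_nv nv_pos avg norm_avg_le tail_bound tail_small mult_of tprod_ne hasProd_zeta SZ mem_SZ
  instFintypeKv)
open Run7.h876.EN

section
variable {K : Type} [Field K] [NumberField K]

/-- `-log(1 - 1/Nv)` -/
noncomputable def cv (v : HeightOneSpectrum (𝓞 K)) : ℝ := -Real.log (1 - 1 / (nv v : ℝ))

theorem inv_nv_le (v : HeightOneSpectrum (𝓞 K)) : 0 < 1 / (nv v : ℝ) ∧ 1 / (nv v : ℝ) ≤ 1 / 2 := by
  have h := nv_pos v
  have h2 : (2 : ℝ) ≤ nv v := by exact_mod_cast two_le_nv v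
  exact ⟨by positivity, one_div_le_one_div_of_le (by norm_num) h2⟩

theorem cv_pos (v : HeightOneSpectrum (𝓞 K)) : 0 < cv v := by
  obtain ⟨h1, h2⟩ := inv_nv_le v
  unfold cv
  rw [neg_pos]
  exact Real.log_neg (by linarith) (by linarith)

theorem cv_le (v : HeightOneSpectrum (𝓞 K)) : cv v ≤ 1 := by
  obtain ⟨h1, h2⟩ := inv_nv_le v
  unfold cv
  have h3 : 1 - (1 - 1 / (nv v : ℝ))⁻¹ ≤ Real.log (1 - 1 / (nv v : ℝ)) := Real.one_sub_inv_le_log_of_pos (by linarith)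
  have h4 : (1 - 1 / (nv v : ℝ))⁻¹ ≤ 2 := by
    rw [inv_le_comm₀ (by linarith) (by norm_num)]
    linarith
  linarith

variable (K) in
/-- the logarithm of the part `Nv ≤ Z` of the Euler product of the zeta function of `K` at `1` -/
noncomputable def VZ (Z : ℕ) : ℝ := ∑ v ∈ SZ K Z, cv v

theorem VZ_nonneg (Z : ℕ) : 0 ≤ VZ K Z := Finset.sum_nonneg fun v _ => (cv_pos v).le

theorem exp_cv (F : Finset (HeightOneSpectrum (𝓞 K))) :
    Real.exp (∑ v ∈ F, cv v) = ∏ v ∈ F, (1 - 1 / (nv v : ℝ))⁻¹ := by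
  rw [Real.exp_sum]
  refine Finset.prod_congr rfl fun v _ => ?_
  obtain ⟨h1, h2⟩ := inv_nv_le v
  unfold cv
  rw [Real.exp_neg, Real.exp_log (by linarith)]

/-- The partial products of the zeta function tend to infinity. -/
theorem VZ_atTop : Tendsto (VZ K) atTop atTop := by
  classical
  have hmono : Monotone (VZ K) := by
    intro a b hab
    exact Finset.sum_le_sum_of_subset_of_nonneg (fun v hv => mem_SZ.2 ((mem_SZ.1 hv).trans hab)) fun v _ _ => (cv_pos v).le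
  rcases tendsto_atTop_of_monotone hmono with h | ⟨l, hl⟩
  · exact h
  exfalso
  have hle : ∀ Z, VZ K Z ≤ l := fun Z => hmono.ge_of_tendsto hl Z
  -- zeta is bounded on (1, ∞)
  have hb : ∀ x : ℝ, 1 < x → ‖dedekindZeta K (x : ℂ)‖ ≤ Real.exp l := by
    intro x hx
    have h1 := hasProd_zeta (K := K) (s := (x : ℂ)) (by simpa using hx)
    have h2 : Tendsto (fun F : Finset (HeightOneSpectrum (𝓞 K)) => ‖∏ v ∈ F, (1 - (nv v : ℂ) ^ (-(x : ℂ)))⁻¹‖) atTop
        (𝓝 ‖dedekindZeta K (x : ℂ)‖) := (Filter.Tendsto.norm h1)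
    refine le_of_tendsto' h2 fun F => ?_
    set Z := F.sup nv with hZ
    have hFZ : F ⊆ SZ K Z := fun v hv => mem_SZ.2 (Finset.le_sup (f := nv) hv)
    rw [norm_prod]
    calc ∏ v ∈ F, ‖(1 - (nv v : ℂ) ^ (-(x : ℂ)))⁻¹‖ ≤ ∏ v ∈ F, (1 - 1 / (nv v : ℝ))⁻¹ := by
          refine Finset.prod_le_prod (fun _ _ => norm_nonneg _) fun v _ => ?_
          obtain ⟨h3, h4⟩ := inv_nv_le v
          rw [norm_inv]
          refine inv_anti₀ (by linarith) ?_
          have h5 : ‖(nv v : ℂ) ^ (-(x : ℂ))‖ ≤ 1 / nv v := by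
            have h : 0 < nv v := by have := two_le_nv v; omega
            rw [Complex.norm_natCast_cpow_of_pos h, Complex.neg_re, Complex.ofReal_re, Real.rpow_neg (nv_pos v).le,
              ← one_div]
            refine one_div_le_one_div_of_le (nv_pos v) ?_
            have h1' : (1 : ℝ) ≤ nv v := by exact_mod_cast h
            calc (nv v : ℝ) = (nv v : ℝ) ^ (1 : ℝ) := (Real.rpow_one _).symm
              _ ≤ (nv v : ℝ) ^ x := Real.rpow_le_rpow_of_exponent_le h1' hx.le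
          have h6 := norm_sub_norm_le (1 : ℂ) ((nv v : ℂ) ^ (-(x : ℂ)))
          rw [norm_one] at h6
          linarith
      _ = Real.exp (∑ v ∈ F, cv v) := (exp_cv F).symm
      _ ≤ Real.exp (VZ K Z) := Real.exp_le_exp.2 (Finset.sum_le_sum_of_subset_of_nonneg hFZ fun v _ _ => (cv_pos v).le)
      _ ≤ Real.exp l := Real.exp_le_exp.2 (hle Z)
  have hR := tendsto_sub_one_mul_dedekindZeta_nhdsGT K
  have hR0 : 0 < dedekindZeta_residue K := dedekindZeta_residue_pos K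
  have h1 : Tendsto (fun x : ℝ => ‖((x : ℂ) - 1) * dedekindZeta K x‖) (𝓝[>] 1) (𝓝 ‖((dedekindZeta_residue K : ℝ) : ℂ)‖) :=
    hR.norm
  have h2 : Tendsto (fun x : ℝ => (x - 1) * Real.exp l) (𝓝[>] 1) (𝓝 0) := by
    have : Tendsto (fun x : ℝ => (x - 1) * Real.exp l) (𝓝 1) (𝓝 ((1 - 1) * Real.exp l)) :=
      Continuous.tendsto (by fun_prop) 1
    rw [sub_self, zero_mul] at this
    exact this.mono_left nhdsWithin_le_nhds
  have h3 := le_of_tendsto_of_tendsto h1 h2 (by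
    filter_upwards [self_mem_nhdsWithin] with x hx
    have hx1 : (1 : ℝ) < x := hx
    rw [norm_mul]
    have e : ‖(x : ℂ) - 1‖ = x - 1 := by
      have : (x : ℂ) - 1 = ((x - 1 : ℝ) : ℂ) := by push_cast; ring
      rw [this, Complex.norm_real, Real.norm_of_nonneg (by linarith)]
    rw [e]
    exact mul_le_mul_of_nonneg_left (hb x hx1) (by linarith))
  rw [Complex.norm_real, Real.norm_of_nonneg hR0.le] at h3
  linarith


/-! ### the abstract setting -/

variable {ι : Type} [Fintype ι] [DecidableEq ι] {J : Type} [Fintype J] [DecidableEq J]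

/-- Real functions of the residues whose exponential moments at a place are Gaussian up to a summable error. -/
structure LocalData (K : Type) [Field K] [NumberField K] (J : Type) [Fintype J] [DecidableEq J] where
  /-- the functions -/
  lam : ∀ v : HeightOneSpectrum (𝓞 K), (J → kv v) → ℝ
  /-- the mean -/
  m : ℝ
  /-- the variance -/
  D : ℝ
  D_pos : 0 < D
  /-- the bound -/
  L : ℝ
  lam_le : ∀ v t, |lam v t| ≤ L
  moments : ∀ R : ℝ, 0 ≤ R → ∃ u : HeightOneSpectrum (𝓞 K) → ℝ, Summable u ∧ ∀ v (κ : ℂ), ‖κ‖ ≤ R →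
    ‖avg Finset.univ (fun t => Complex.exp (κ * lam v t - (κ * m + κ ^ 2 * D / 2) * cv v)) - 1‖ ≤ u v

namespace LocalData
variable (𝓛 : LocalData K J)

/-- the exponent of the normalised local factor -/
noncomputable def ee (κ : ℂ) (v : HeightOneSpectrum (𝓞 K)) (t : J → kv v) : ℂ :=
  κ * 𝓛.lam v t - (κ * 𝓛.m + κ ^ 2 * 𝓛.D / 2) * cv v

/-- the limit function -/
noncomputable def Psi (κ : ℂ) : ℂ := ∏' v : HeightOneSpectrum (𝓞 K), avg Finset.univ (fun t => Complex.exp (𝓛.ee κ v t))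

/-- the sum over the places `Nv ≤ Z` -/
noncomputable def W (Z : ℕ) (t : J → 𝓞 K) : ℝ := ∑ v ∈ SZ K Z, 𝓛.lam v (rd v t)

theorem L_nonneg : 0 ≤ 𝓛.L := by
  obtain ⟨v⟩ : Nonempty (HeightOneSpectrum (𝓞 K)) := by
    by_contra h
    rw [not_nonempty_iff] at h
    have h1 := VZ_atTop (K := K)
    have h2 : VZ K = fun _ => 0 := by
      funext Z
      unfold VZ
      rw [Finset.eq_empty_of_isEmpty (SZ K Z), Finset.sum_empty]
    rw [h2] at h1
    exact not_tendsto_const_atTop (0 : ℝ) atTop h1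
  exact (abs_nonneg _).trans (𝓛.lam_le v 0)

/-- the bound of the exponent -/
noncomputable def BB (R : ℝ) : ℝ := R * 𝓛.L + R * |𝓛.m| + R ^ 2 * 𝓛.D / 2

theorem BB_nonneg {R : ℝ} (hR : 0 ≤ R) : 0 ≤ 𝓛.BB R := by
  have := 𝓛.L_nonneg
  have := 𝓛.D_pos
  unfold BB; positivity

theorem ee_le {R : ℝ} {κ : ℂ} (hκ : ‖κ‖ ≤ R) (v : HeightOneSpectrum (𝓞 K)) (t : J → kv v) : ‖𝓛.ee κ v t‖ ≤ 𝓛.BB R := by
  have hR : 0 ≤ R := (norm_nonneg _).trans hκ
  have hD := 𝓛.D_pos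
  unfold ee BB
  have h1 : ‖κ * (𝓛.lam v t : ℂ)‖ ≤ R * 𝓛.L := by
    rw [norm_mul, Complex.norm_real]
    exact mul_le_mul hκ (𝓛.lam_le v t) (norm_nonneg _) hR
  have h2 : ‖(κ * 𝓛.m + κ ^ 2 * 𝓛.D / 2) * (cv v : ℂ)‖ ≤ R * |𝓛.m| + R ^ 2 * 𝓛.D / 2 := by
    rw [norm_mul, Complex.norm_real, Real.norm_of_nonneg (cv_pos v).le]
    have h3 : ‖κ * 𝓛.m + κ ^ 2 * 𝓛.D / 2‖ ≤ R * |𝓛.m| + R ^ 2 * 𝓛.D / 2 := by
      refine (norm_add_le _ _).trans (add_le_add ?_ ?_)
      · rw [norm_mul, Complex.norm_real, Real.norm_eq_abs]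
        gcongr
      · rw [norm_div, norm_mul, norm_pow, Complex.norm_real, Real.norm_of_nonneg hD.le, Complex.norm_ofNat]
        gcongr
    exact (mul_le_of_le_one_right (norm_nonneg _) (cv_le v)).trans h3
  have := (norm_sub_le (κ * (𝓛.lam v t : ℂ)) ((κ * 𝓛.m + κ ^ 2 * 𝓛.D / 2) * (cv v : ℂ)))
  linarith

theorem ee_exp_le {R : ℝ} {κ : ℂ} (hκ : ‖κ‖ ≤ R) (v : HeightOneSpectrum (𝓞 K)) (t : J → kv v) :
    ‖Complex.exp (𝓛.ee κ v t)‖ ≤ Real.exp (𝓛.BB R) := by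
  rw [Complex.norm_exp]
  exact Real.exp_le_exp.2 ((Complex.re_le_norm _).trans (𝓛.ee_le hκ v t))

theorem Psi_diff : Differentiable ℂ 𝓛.Psi := by
  classical
  intro κ₀
  set R : ℝ := ‖κ₀‖ + 1 with hR
  obtain ⟨u, hu, hub⟩ := 𝓛.moments R (by positivity)
  have hopen : IsOpen {κ : ℂ | ‖κ‖ < R} := isOpen_lt continuous_norm continuous_const
  have hT : TendstoUniformlyOn (fun (F : Finset (HeightOneSpectrum (𝓞 K))) κ =>
      ∏ v ∈ F, avg Finset.univ (fun t => Complex.exp (𝓛.ee κ v t))) 𝓛.Psi atTop {κ : ℂ | ‖κ‖ < R} := by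
    rw [Metric.tendstoUniformlyOn_iff]
    intro ε hε
    obtain ⟨S, hS⟩ := tail_small hu hε
    filter_upwards [Filter.eventually_ge_atTop S] with F hF κ hκ
    rw [dist_eq_norm]
    have hκ' : ‖κ‖ < R := hκ
    exact (tail_bound hu (fun v => hub v κ hκ'.le) F).trans_lt (hS F hF)
  have hd := hT.tendstoLocallyUniformlyOn.differentiableOn (Filter.Eventually.of_forall fun F κ _ => by
    refine DifferentiableAt.differentiableWithinAt (DifferentiableAt.fun_finsetProd fun v _ => ?_)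
    unfold avg ee
    exact (DifferentiableAt.fun_sum fun t _ => by fun_prop).div_const _) hopen
  have hκ₀ : ‖κ₀‖ < R := by rw [hR]; linarith
  exact (hd κ₀ hκ₀).differentiableAt (hopen.mem_nhds hκ₀)

theorem Psi_zero : 𝓛.Psi 0 = 1 := by
  unfold Psi ee
  have : ∀ v : HeightOneSpectrum (𝓞 K), avg Finset.univ (fun t : J → kv v =>
      Complex.exp (0 * (𝓛.lam v t : ℂ) - (0 * 𝓛.m + 0 ^ 2 * 𝓛.D / 2) * cv v)) = 1 := by
    intro v
    have h1 : (fun t : J → kv v => Complex.exp (0 * (𝓛.lam v t : ℂ) - (0 * 𝓛.m + 0 ^ 2 * 𝓛.D / 2) * cv v)) = fun _ => 1 := by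
      funext t
      simp
    rw [h1]
    unfold avg
    rw [Finset.sum_const, nsmul_eq_mul, mul_one]
    refine div_self ?_
    rw [Finset.card_univ]
    exact_mod_cast Fintype.card_pos.ne'
  simp only [this, tprod_one]

theorem avg_real (κ : ℝ) (v : HeightOneSpectrum (𝓞 K)) :
    ∃ r : ℝ, 0 < r ∧ avg Finset.univ (fun t => Complex.exp (𝓛.ee κ v t)) = (r : ℂ) := by
  classical
  have hr : ∀ t, Complex.exp (𝓛.ee κ v t) = ((Real.exp (κ * 𝓛.lam v t - (κ * 𝓛.m + κ ^ 2 * 𝓛.D / 2) * cv v) : ℝ) : ℂ) := by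
    intro t
    unfold ee
    push_cast
    rfl
  refine ⟨(∑ t : J → kv v, Real.exp (κ * 𝓛.lam v t - (κ * 𝓛.m + κ ^ 2 * 𝓛.D / 2) * cv v)) / (Fintype.card (J → kv v)), ?_, ?_⟩
  · have h1 : 0 < ∑ t : J → kv v, Real.exp (κ * 𝓛.lam v t - (κ * 𝓛.m + κ ^ 2 * 𝓛.D / 2) * cv v) :=
      Finset.sum_pos (fun t _ => Real.exp_pos _) ⟨fun _ => 0, Finset.mem_univ _⟩
    have h2 : (0 : ℝ) < Fintype.card (J → kv v) := by exact_mod_cast Fintype.card_pos
    positivity
  · unfold avg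
    simp only [hr]
    rw [Finset.card_univ]
    push_cast
    rfl

theorem Psi_real (κ : ℝ) : ∃ r : ℝ, 0 < r ∧ 𝓛.Psi κ = (r : ℂ) := by
  classical
  obtain ⟨u, hu, hub⟩ := 𝓛.moments ‖(κ : ℂ)‖ (norm_nonneg _)
  have hb : ∀ v, ‖avg Finset.univ (fun t => Complex.exp (𝓛.ee κ v t)) - 1‖ ≤ u v := fun v => hub v _ le_rfl
  have h1 := (mult_of hu hb).hasProd
  choose r hr hr2 using fun v => 𝓛.avg_real κ v
  have hne : 𝓛.Psi κ ≠ 0 := tprod_ne hu hb fun v => by
    rw [hr2 v]; exact_mod_cast (hr v).ne'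
  have hprod : ∀ F : Finset (HeightOneSpectrum (𝓞 K)), ∏ v ∈ F, avg Finset.univ (fun t => Complex.exp (𝓛.ee κ v t)) =
      ((∏ v ∈ F, r v : ℝ) : ℂ) := by
    intro F
    rw [Finset.prod_congr rfl fun v _ => hr2 v]
    push_cast; rfl
  have hre : Tendsto (fun F : Finset (HeightOneSpectrum (𝓞 K)) => (∏ v ∈ F, r v : ℝ)) atTop (𝓝 (𝓛.Psi κ).re) := by
    have := (Complex.continuous_re.tendsto _).comp h1
    refine this.congr fun F => ?_
    simp only [Function.comp_apply, hprod, Complex.ofReal_re]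
  have him : Tendsto (fun _ : Finset (HeightOneSpectrum (𝓞 K)) => (0 : ℝ)) atTop (𝓝 (𝓛.Psi κ).im) := by
    have := (Complex.continuous_im.tendsto _).comp h1
    refine this.congr fun F => ?_
    simp only [Function.comp_apply, hprod, Complex.ofReal_im]
  have him0 : (𝓛.Psi κ).im = 0 := tendsto_nhds_unique him tendsto_const_nhds
  have hre0 : 0 ≤ (𝓛.Psi κ).re := ge_of_tendsto' hre fun F => (Finset.prod_pos fun v _ => hr v).le
  have he : 𝓛.Psi κ = ((𝓛.Psi κ).re : ℂ) := by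
    apply Complex.ext
    · simp
    · simp [him0]
  refine ⟨(𝓛.Psi κ).re, lt_of_le_of_ne hre0 fun h => hne ?_, he⟩
  rw [he, ← h]; simp

variable (ω : Module.Basis ι ℤ (𝓞 K)) {G : Set (J → 𝓞 K)} {Cb : ℝ}

/-- **Mod-Gaussian convergence.** -/
theorem modGauss (hCb : 0 ≤ Cb) (hG : Thin ω G Cb) {R θ ε : ℝ} (hR : 0 ≤ R) (hθ : 0 < θ) (hε : 0 < ε) :
    ∃ Z₀ : ℕ, ∀ Z : ℕ, Z₀ ≤ Z → ∀ H : J → ℕ, (∀ j, Real.exp ((Z : ℝ) ^ (1 + θ)) ≤ H j) → ∀ κ : ℂ, ‖κ‖ ≤ R →
      ‖mean ω H G (fun t => Complex.exp (κ * 𝓛.W Z t)) * Complex.exp (-((κ * 𝓛.m + κ ^ 2 * 𝓛.D / 2) * VZ K Z)) -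
        𝓛.Psi κ‖ ≤ ε := by
  obtain ⟨u, hu, hub⟩ := 𝓛.moments R hR
  obtain ⟨Z₀, hZ₀⟩ := meanB (P := {κ : ℂ // ‖κ‖ ≤ R}) ω hCb hG u hu
    (fun v p t => Complex.exp (𝓛.ee p.1 v t)) (D := Real.exp (𝓛.BB R))
    (Real.one_le_exp (𝓛.BB_nonneg hR)) (fun v p t => 𝓛.ee_exp_le p.2 v t)
    (fun v p => hub v p.1 p.2) hθ hε
  refine ⟨Z₀, fun Z hZ H hH κ hκ => ?_⟩
  have h := hZ₀ Z hZ H hH ⟨κ, hκ⟩
  have e : (fun t : J → 𝓞 K => ∏ v ∈ SZ K Z, Complex.exp (𝓛.ee κ v (rd v t))) =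
      fun t => Complex.exp (κ * 𝓛.W Z t) * Complex.exp (-((κ * 𝓛.m + κ ^ 2 * 𝓛.D / 2) * VZ K Z)) := by
    funext t
    rw [← Complex.exp_sum, ← Complex.exp_add]
    congr 1
    unfold ee W VZ
    rw [Finset.sum_sub_distrib, ← Finset.mul_sum, ← Finset.mul_sum]
    push_cast
    ring
  simp only at h
  rw [e] at h
  have e2 : mean ω H G (fun t => Complex.exp (κ * 𝓛.W Z t) * Complex.exp (-((κ * 𝓛.m + κ ^ 2 * 𝓛.D / 2) * VZ K Z))) =
      mean ω H G (fun t => Complex.exp (κ * 𝓛.W Z t)) * Complex.exp (-((κ * 𝓛.m + κ ^ 2 * 𝓛.D / 2) * VZ K Z)) := by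
    unfold mean
    rw [← Finset.sum_mul]
    ring
  rw [e2] at h
  exact h

end LocalData

end

end Run7.h9.BS
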