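import Pool.Agent.Run7.h9.BS.Fin
import Pool.Agent.Run7.h9.TW.Mert
import Pool.Agent.Run7.h876.PW.Gen

/-!
# The products of Birch and Swinnerton-Dyer: conclusions over boxes whose sides are powers of the bound
-/

set_option autoImplicit false
set_option linter.unusedSectionVars false

namespace Run7.h9.BS

open NumberField IsDedekindDomain Finset Filter Topology Polynomial
open Run7.h876.MM (nv kv nv_pos SZ mem_SZ)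
open Run7.h876.EN Run7.h876.HY LocalData

section
variable {K : Type} [Field K] [NumberField K] {J : Type} [Fintype J] [DecidableEq J] (𝓕 : Family K J)

variable (K) in
theorem mertens_zeta : ∃ C : ℝ, ∀ Z : ℕ, 3 ≤ Z → |Real.log (zetaProd K Z) - Real.log (Real.log Z)| ≤ C := by
  obtain ⟨C, _, h⟩ := Run7.h9.TW.VZ_mert K
  refine ⟨C, fun Z hZ => ?_⟩
  rw [log_zetaProd]
  exact h Z hZ

variable {ι : Type} [Fintype ι] [DecidableEq ι] (ω : Module.Basis ι ℤ (𝓞 K))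

theorem bs_clt2 (a : ℝ) {ε : ℝ} (hε : 0 < ε) :
    ∃ C Z₀ : ℕ, ∀ Z : ℕ, Z₀ ≤ Z → ∀ H : Fin 2 ⊕ J → ℕ, (∀ j, Z ^ C ≤ H j) →
      |prop ω H 𝓕.smooth (fun t => Real.log (bsd Z (𝓕.member t)) ≤
        (𝓕.rk + 1 / 2) * Real.log (zetaProd K Z) + a * Real.sqrt (Real.log (zetaProd K Z))) - Phi a| ≤ ε := by
  obtain ⟨C, Z₀, hZ₀⟩ := Run7.h876.PW.pw_clt ω (bsdData 𝓕) (fun Z t => bsd Z (𝓕.member t)) (bsd_eq 𝓕) (by positivity)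
    (thin_smooth 𝓕 ω) a hε
  refine ⟨C, Z₀, fun Z hZ H hH => ?_⟩
  have h := hZ₀ Z hZ H hH
  have e1 : (bsdData 𝓕).D = 1 := rfl
  have e2 : (bsdData 𝓕).m = 𝓕.rk + 1 / 2 := rfl
  rw [e1, e2, one_mul] at h
  exact h

theorem bs_tail2 {a : ℝ} (ha : 0 < a) :
    ∃ C : ℝ, 0 < C ∧ ∃ Z₀ : ℕ, ∀ Z : ℕ, Z₀ ≤ Z → ∀ H : Fin 2 ⊕ J → ℕ, (∀ j, (Z : ℝ) ^ (C * Real.log (zetaProd K Z)) ≤ H j) →
      prop ω H 𝓕.smooth (fun t => a * Real.log (zetaProd K Z) ≤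
        |Real.log (bsd Z (𝓕.member t)) - (𝓕.rk + 1 / 2) * Real.log (zetaProd K Z)|) ≤ C * zetaProd K Z ^ (-(a ^ 2 / 2)) := by
  obtain ⟨C, hC, Z₀, hZ₀⟩ := Run7.h876.PW.pw_tail ω (bsdData 𝓕) (fun Z t => bsd Z (𝓕.member t)) (bsd_eq 𝓕)
    (thin_smooth 𝓕 ω) ha
  refine ⟨C, hC, Z₀, fun Z hZ H hH => ?_⟩
  have h := hZ₀ Z hZ H hH
  have e1 : (bsdData 𝓕).D = 1 := rfl
  have e2 : (bsdData 𝓕).m = 𝓕.rk + 1 / 2 := rfl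
  rw [e1, e2, mul_one] at h
  exact h

theorem bs_round2 :
    ∃ C : ℝ, 0 < C ∧ ∃ Z₀ : ℕ, ∀ Z : ℕ, Z₀ ≤ Z → ∀ H : Fin 2 ⊕ J → ℕ, (∀ j, (Z : ℝ) ^ (C * Real.log (zetaProd K Z)) ≤ H j) →
      prop ω H 𝓕.smooth (fun t => round (Real.log (bsd Z (𝓕.member t)) / Real.log (zetaProd K Z) - 1 / 2) ≠ (𝓕.rk : ℤ)) ≤
        C * zetaProd K Z ^ (-(1 / 8 : ℝ)) := by
  obtain ⟨C, hC, Z₀, hZ₀⟩ := Run7.h876.PW.pw_round ω (bsdData 𝓕) (fun Z t => bsd Z (𝓕.member t)) (bsd_eq 𝓕)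
    (thin_smooth 𝓕 ω) (𝓕.rk : ℤ) (1 / 2) (by
      have e2 : (bsdData 𝓕).m = 𝓕.rk + 1 / 2 := rfl
      rw [e2]
      push_cast
      ring)
  refine ⟨C, hC, Z₀, fun Z hZ H hH => ?_⟩
  have h := hZ₀ Z hZ H hH
  have e1 : (bsdData 𝓕).D = 1 := rfl
  rw [e1, mul_one] at h
  exact h

theorem bs_round_pow (k : ℕ) :
    ∃ C : ℕ, ∃ A : ℝ, 0 < A ∧ ∃ Z₀ : ℕ, ∀ Z : ℕ, Z₀ ≤ Z → ∀ H : Fin 2 ⊕ J → ℕ, (∀ j, Z ^ C ≤ H j) →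
      prop ω H 𝓕.smooth (fun t => round (Real.log (bsd Z (𝓕.member t)) / Real.log (zetaProd K Z) - 1 / 2) ≠ (𝓕.rk : ℤ)) ≤
        A / Real.log (zetaProd K Z) ^ k :=
  Run7.h876.PW.pw_round_pow ω (bsdData 𝓕) (fun Z t => bsd Z (𝓕.member t)) (bsd_eq 𝓕)
    (thin_smooth 𝓕 ω) (𝓕.rk : ℤ) (1 / 2) (by
      have e2 : (bsdData 𝓕).m = 𝓕.rk + 1 / 2 := rfl
      rw [e2]
      push_cast
      ring) k

end

end Run7.h9.BS
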