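import Pool.Agent.Run7.h9.BS.Clt
import Pool.Agent.Run7.h9.BS.Pow

/-!
# The products of Birch and Swinnerton-Dyer: local data
-/

set_option autoImplicit false
set_option linter.unusedSectionVars false

namespace Run7.h9.BS

open NumberField IsDedekindDomain Finset Filter Topology Polynomial
open Run7.h876.MM (nv kv two_le_nv nv_pos avg card_kv norm_avg_le tail_bound tail_small mult_of tprod_ne hasProd_zeta SZ mem_SZ
  instFieldKv instFintypeKv instDecKv)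
open Run7.h876.EN Run7.h876.HY

section
variable {K : Type} [Field K] [NumberField K] {J : Type} [Fintype J] [DecidableEq J] (𝓕 : Family K J)

open Classical in
/-- the trace of Frobenius -/
noncomputable def aa (v : HeightOneSpectrum (𝓞 K)) (t : Fin 2 ⊕ J → kv v) : ℝ :=
  if ringChar (kv v) ≠ 2 then (trc (fpol 𝓕 v t) 0 : ℝ) else 0

open Classical in
/-- good reduction -/
noncomputable def eps (v : HeightOneSpectrum (𝓞 K)) (t : Fin 2 ⊕ J → kv v) : ℝ :=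
  if ringChar (kv v) ≠ 2 ∧ (fpol 𝓕 v t).Separable then 1 else 0

theorem eps_le (v : HeightOneSpectrum (𝓞 K)) (t : Fin 2 ⊕ J → kv v) : 0 ≤ eps 𝓕 v t ∧ eps 𝓕 v t ≤ 1 := by
  unfold eps; split_ifs <;> norm_num

theorem aa_eq (v : HeightOneSpectrum (𝓞 K)) (t : Fin 2 ⊕ J → kv v) : av 𝓕 v t 0 = (aa 𝓕 v t : ℂ) := by
  unfold av aa; split_ifs <;> simp

theorem aa_le (v : HeightOneSpectrum (𝓞 K)) (t : Fin 2 ⊕ J → kv v) :
    |aa 𝓕 v t| ≤ DD 𝓕.F₀.natDegree * Real.sqrt (nv v) := by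
  have h := av_le 𝓕 v t 0
  rw [aa_eq, Complex.norm_real, Real.norm_eq_abs, zero_add, pow_one] at h
  exact h

/-- `#C(k_v) / Nv - 1` for a place of good reduction, zero otherwise -/
noncomputable def xx (v : HeightOneSpectrum (𝓞 K)) (t : Fin 2 ⊕ J → kv v) : ℝ := (eps 𝓕 v t - aa 𝓕 v t) / nv v

theorem sqrt_facts (v : HeightOneSpectrum (𝓞 K)) : 1 ≤ Real.sqrt (nv v) ∧ Real.sqrt (nv v) * Real.sqrt (nv v) = nv v := by
  refine ⟨Real.one_le_sqrt.2 (one_le_nv v), Real.mul_self_sqrt (nv_pos v).le⟩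

theorem xx_le (v : HeightOneSpectrum (𝓞 K)) (t : Fin 2 ⊕ J → kv v) :
    |xx 𝓕 v t| ≤ (DD 𝓕.F₀.natDegree + 1) / Real.sqrt (nv v) := by
  obtain ⟨h1, h2⟩ := sqrt_facts v
  have h3 := eps_le 𝓕 v t
  have h4 := aa_le 𝓕 v t
  have hq := nv_pos v
  set Q := Real.sqrt (nv v) with hQ
  have hQ0 : 0 < Q := by linarith
  unfold xx
  rw [abs_div, abs_of_pos hq, div_le_div_iff₀ hq hQ0, ← h2]
  have h5 : |eps 𝓕 v t - aa 𝓕 v t| ≤ (DD 𝓕.F₀.natDegree + 1) * Q := by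
    refine (abs_sub _ _).trans ?_
    rw [abs_of_nonneg h3.1]
    linarith
  calc |eps 𝓕 v t - aa 𝓕 v t| * Q ≤ (DD 𝓕.F₀.natDegree + 1) * Q * Q := mul_le_mul_of_nonneg_right h5 hQ0.le
    _ = _ := by ring

/-- the number of the points in terms of the residues -/
theorem points_eq (v : HeightOneSpectrum (𝓞 K)) (t : Fin 2 ⊕ J → 𝓞 K) (h : GoodAt (𝓕.member t) v) :
    (points (𝓕.member t) v : ℝ) = nv v + 1 - aa 𝓕 v (rd v t) := by
  classical
  obtain ⟨h1, h2⟩ := (goodAt_iff 𝓕 v t).1 h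
  unfold points aa
  rw [if_pos h1, map_member, (member_monic 𝓕 t).2]
  have h3 := card_pts_ext (E := kv v) h1 (fun x => (fpol 𝓕 v (rd v t)).eval x)
  have h4 := T_one h1 (fpol 𝓕 v (rd v t))
  have h5 : ((Nat.card {P : kv v × kv v // P.2 ^ 2 = (fpol 𝓕 v (rd v t)).eval P.1} : ℕ) : ℝ) =
      nv v + (Pool.Agent.H341R2.Sharp.T (fpol 𝓕 v (rd v t)) 1 : ℝ) := by
    rw [h4, ← card_kv v]
    exact_mod_cast h3
  unfold trc
  rw [if_pos h2, (fpol_monic 𝓕 v _).2]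
  unfold dlt
  have h6 : ((Nat.card {P : (𝓞 K ⧸ v.asIdeal) × (𝓞 K ⧸ v.asIdeal) // P.2 ^ 2 = (fpol 𝓕 v (rd v t)).eval P.1} : ℕ) : ℝ) =
      ((Nat.card {P : kv v × kv v // P.2 ^ 2 = (fpol 𝓕 v (rd v t)).eval P.1} : ℕ) : ℝ) := rfl
  rw [Nat.cast_add, h6, h5]
  split_ifs <;> push_cast <;> ring

theorem one_add_xx (v : HeightOneSpectrum (𝓞 K)) (t : Fin 2 ⊕ J → 𝓞 K) [Decidable (GoodAt (𝓕.member t) v)] :
    1 + xx 𝓕 v (rd v t) = if GoodAt (𝓕.member t) v then (points (𝓕.member t) v : ℝ) / nv v else 1 := by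
  classical
  have hq := (nv_pos v).ne'
  split_ifs with h
  · rw [points_eq 𝓕 v t h]
    unfold xx eps
    rw [if_pos ((goodAt_iff 𝓕 v t).1 h)]
    field_simp
    ring
  · unfold xx eps aa
    rw [if_neg (fun h2 => h ((goodAt_iff 𝓕 v t).2 h2))]
    split_ifs with hc
    · have h2 : ¬ (fpol 𝓕 v (rd v t)).Separable := fun h2 => h ((goodAt_iff 𝓕 v t).2 ⟨hc, h2⟩)
      unfold trc
      rw [if_neg h2]
      simp
    · simp

theorem exists_lift (v : HeightOneSpectrum (𝓞 K)) (t : Fin 2 ⊕ J → kv v) : ∃ t' : Fin 2 ⊕ J → 𝓞 K, rd v t' = t := by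
  have h : ∀ j, ∃ a : 𝓞 K, Ideal.Quotient.mk v.asIdeal a = t j := fun j => Ideal.Quotient.mk_surjective _
  choose a ha using h
  exact ⟨a, funext ha⟩

theorem one_add_xx_ge (v : HeightOneSpectrum (𝓞 K)) (t : Fin 2 ⊕ J → kv v) : 1 / (nv v : ℝ) ≤ 1 + xx 𝓕 v t := by
  classical
  obtain ⟨t', rfl⟩ := exists_lift v t
  rw [one_add_xx]
  split_ifs with h
  · refine div_le_div_of_nonneg_right ?_ (nv_pos v).le
    unfold points
    have : 1 ≤ Nat.card {P : (𝓞 K ⧸ v.asIdeal) × (𝓞 K ⧸ v.asIdeal) //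
        P.2 ^ 2 = ((𝓕.member t').map (Ideal.Quotient.mk v.asIdeal)).eval P.1} + if Odd (𝓕.member t').natDegree then 1 else 2 := by
      split_ifs <;> omega
    exact_mod_cast this
  · obtain ⟨h1, h2⟩ := inv_nv_le v
    linarith

/-! ### means -/

theorem avg_eps {v : HeightOneSpectrum (𝓞 K)} (hv : N0 𝓕 ∉ v.asIdeal) :
    |(∑ t, eps 𝓕 v t) / Fintype.card (Fin 2 ⊕ J → kv v) - 1| ≤ (2 * 𝓕.F₀.natDegree : ℕ) / (nv v : ℝ) := by
  classical
  obtain ⟨h1, h2, h3, h4⟩ := good_facts 𝓕 hv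
  have hdr := 𝓕.deg
  have key := fiber_bound (fun t => eps 𝓕 v t) (-1) ((2 * 𝓕.F₀.natDegree : ℕ) / (nv v : ℝ)) (by have := nv_pos v; positivity) (fun w => by
    obtain ⟨U, R, hU1, hU2, hR1, hR2, hfam⟩ := fpol_fam 𝓕 hv w
    have hb := card_nonsep hU1 (R := R) (by rw [hR1, hU2]; exact hdr) (fun x hx h0 => by
      have := hR2 x hx
      rw [h0, MulChar.map_zero] at this
      exact zero_ne_one this) (by rw [hR1, hU2]; exact h2)
    have hq : (0 : ℝ) < Fintype.card (kv v) := by exact_mod_cast Fintype.card_pos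
    have e1 : ∑ p : kv v × kv v, eps 𝓕 v (Sum.elim ![p.1, p.2] w) =
        (Fintype.card (kv v) : ℝ) ^ 2 - (#{t : kv v × kv v | ¬ (fam U R t).Separable} : ℕ) := by
      have h5 : ∀ p : kv v × kv v, eps 𝓕 v (Sum.elim ![p.1, p.2] w) = 1 - if ¬ (fam U R p).Separable then 1 else 0 := by
        intro p
        unfold eps
        rw [hfam]
        by_cases hs : (fam U R p).Separable
        · rw [if_pos ⟨h1, hs⟩, if_neg (not_not.2 hs)]; norm_num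
        · rw [if_neg (fun h => hs h.2), if_pos hs]; norm_num
      rw [Finset.sum_congr rfl fun p _ => h5 p, Finset.sum_sub_distrib, Finset.sum_const, Finset.card_univ,
        Fintype.card_prod, Finset.sum_boole]
      simp
      ring
    rw [e1, card_kv]
    rw [card_kv] at hq hb
    have e2 : ((nv v : ℝ) ^ 2 - (#{t : kv v × kv v | ¬ (fam U R t).Separable} : ℕ)) / (nv v : ℝ) ^ 2 + -1 =
        -((#{t : kv v × kv v | ¬ (fam U R t).Separable} : ℕ) / (nv v : ℝ) ^ 2) := by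
      field_simp
      ring
    rw [e2, abs_neg, abs_of_nonneg (by positivity), div_le_div_iff₀ (by positivity) hq]
    have h6 : ((#{t : kv v × kv v | ¬ (fam U R t).Separable} : ℕ) : ℝ) ≤ (2 * 𝓕.F₀.natDegree : ℕ) * nv v := by
      have : U.natDegree + R.card ≤ 2 * 𝓕.F₀.natDegree := by rw [hU2, hR1]; omega
      exact_mod_cast hb.trans (Nat.mul_le_mul_right _ this)
    calc _ ≤ (2 * 𝓕.F₀.natDegree : ℕ) * (nv v : ℝ) * nv v := mul_le_mul_of_nonneg_right h6 hq.le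
      _ = _ := by ring)
  refine le_trans (le_of_eq ?_) key
  rw [← Real.norm_eq_abs, ← Complex.norm_real]
  congr 1
  unfold avg
  rw [Finset.card_univ]
  push_cast
  ring

theorem sum_aa {v : HeightOneSpectrum (𝓞 K)} (hv : N0 𝓕 ∉ v.asIdeal) :
    |(∑ t, aa 𝓕 v t) / Fintype.card (Fin 2 ⊕ J → kv v) + 𝓕.rk| ≤ C1 𝓕.F₀.natDegree / Real.sqrt (nv v) ∧
    |(∑ t, (aa 𝓕 v t + 𝓕.rk) ^ 2) / Fintype.card (Fin 2 ⊕ J → kv v) - nv v| ≤ C1 𝓕.F₀.natDegree * Real.sqrt (nv v) := by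
  obtain ⟨m1, m2, m3⟩ := local_moments 𝓕 hv
  constructor
  · refine le_trans (le_of_eq ?_) m1
    rw [← Real.norm_eq_abs, ← Complex.norm_real]
    congr 1
    unfold avg
    rw [Finset.card_univ]
    simp only [aa_eq]
    push_cast
    ring
  · refine le_trans (le_of_eq ?_) m2
    rw [← Real.norm_eq_abs, ← Complex.norm_real]
    congr 1
    unfold avg
    rw [Finset.card_univ]
    simp only [aa_eq]
    push_cast
    ring

/-- the constant -/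
noncomputable def C2 : ℝ := (2 * 𝓕.F₀.natDegree : ℕ) + C1 𝓕.F₀.natDegree +
  2 * (DD 𝓕.F₀.natDegree + 𝓕.rk) * (𝓕.rk + 1) + (𝓕.rk + 1) ^ 2

theorem C2_nonneg : 0 ≤ C2 𝓕 := by
  have := C1_nonneg 𝓕.F₀.natDegree
  have := DD_nonneg 𝓕.F₀.natDegree
  unfold C2; positivity

theorem avg_xx {v : HeightOneSpectrum (𝓞 K)} (hv : N0 𝓕 ∉ v.asIdeal) :
    |(∑ t, xx 𝓕 v t) / Fintype.card (Fin 2 ⊕ J → kv v) - (𝓕.rk + 1) / nv v| ≤ C2 𝓕 / (nv v * Real.sqrt (nv v)) := by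
  have h1 := avg_eps 𝓕 hv
  obtain ⟨h2, -⟩ := sum_aa 𝓕 hv
  obtain ⟨hQ1, hQQ⟩ := sqrt_facts v
  have hq := nv_pos v
  set Q := Real.sqrt (nv v) with hQ
  have hQ0 : 0 < Q := by linarith
  have hC := C1_nonneg 𝓕.F₀.natDegree
  have hD := DD_nonneg 𝓕.F₀.natDegree
  have e : (∑ t, xx 𝓕 v t) / Fintype.card (Fin 2 ⊕ J → kv v) - (𝓕.rk + 1) / nv v =
      (((∑ t, eps 𝓕 v t) / Fintype.card (Fin 2 ⊕ J → kv v) - 1) -
        ((∑ t, aa 𝓕 v t) / Fintype.card (Fin 2 ⊕ J → kv v) + 𝓕.rk)) / nv v := by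
    unfold xx
    rw [← Finset.sum_div, Finset.sum_sub_distrib]
    have hc : (Fintype.card (Fin 2 ⊕ J → kv v) : ℝ) ≠ 0 := by exact_mod_cast Fintype.card_pos.ne'
    field_simp
    ring
  rw [e, abs_div, abs_of_pos hq, div_le_div_iff₀ hq (by positivity)]
  have h3 : |((∑ t, eps 𝓕 v t) / Fintype.card (Fin 2 ⊕ J → kv v) - 1) -
        ((∑ t, aa 𝓕 v t) / Fintype.card (Fin 2 ⊕ J → kv v) + 𝓕.rk)| ≤
      (2 * 𝓕.F₀.natDegree : ℕ) / (nv v : ℝ) + C1 𝓕.F₀.natDegree / Q := (abs_sub _ _).trans (add_le_add h1 h2)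
  have h4 : (2 * 𝓕.F₀.natDegree : ℕ) / (nv v : ℝ) ≤ (2 * 𝓕.F₀.natDegree : ℕ) / Q := by
    refine div_le_div_of_nonneg_left (by positivity) hQ0 ?_
    rw [← hQQ]; exact le_mul_of_one_le_left hQ0.le hQ1
  have h5 : |((∑ t, eps 𝓕 v t) / Fintype.card (Fin 2 ⊕ J → kv v) - 1) -
        ((∑ t, aa 𝓕 v t) / Fintype.card (Fin 2 ⊕ J → kv v) + 𝓕.rk)| ≤ C2 𝓕 / Q := by
    refine h3.trans ((add_le_add h4 le_rfl).trans ?_)
    rw [← add_div]
    refine div_le_div_of_nonneg_right ?_ hQ0.le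
    unfold C2
    have : (0 : ℝ) ≤ 2 * (DD 𝓕.F₀.natDegree + 𝓕.rk) * (𝓕.rk + 1) + (𝓕.rk + 1) ^ 2 := by positivity
    linarith
  calc _ ≤ C2 𝓕 / Q * (nv v * Q) := mul_le_mul_of_nonneg_right h5 (by positivity)
    _ = _ := by field_simp

theorem avg_xx_sq {v : HeightOneSpectrum (𝓞 K)} (hv : N0 𝓕 ∉ v.asIdeal) :
    |(∑ t, xx 𝓕 v t ^ 2) / Fintype.card (Fin 2 ⊕ J → kv v) - 1 / nv v| ≤ C2 𝓕 / (nv v * Real.sqrt (nv v)) := by
  obtain ⟨-, h2⟩ := sum_aa 𝓕 hv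
  obtain ⟨hQ1, hQQ⟩ := sqrt_facts v
  have hq := nv_pos v
  obtain ⟨Q, hQ⟩ : ∃ Q, Q = Real.sqrt (nv v) := ⟨_, rfl⟩
  rw [← hQ] at hQ1 hQQ h2 ⊢
  have hQ0 : 0 < Q := by linarith
  have hC := C1_nonneg 𝓕.F₀.natDegree
  have hD := DD_nonneg 𝓕.F₀.natDegree
  have hc0 : (0 : ℝ) < Fintype.card (Fin 2 ⊕ J → kv v) := by exact_mod_cast Fintype.card_pos
  have hc : (Fintype.card (Fin 2 ⊕ J → kv v) : ℝ) ≠ 0 := hc0.ne'
  obtain ⟨N, hN⟩ : ∃ N : ℝ, N = Fintype.card (Fin 2 ⊕ J → kv v) := ⟨_, rfl⟩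
  rw [← hN] at h2 hc hc0 ⊢
  have e : (∑ t, xx 𝓕 v t ^ 2) / N - 1 / nv v =
      (((∑ t, (aa 𝓕 v t + 𝓕.rk) ^ 2) / N - nv v) +
        (∑ t, ((eps 𝓕 v t + 𝓕.rk) ^ 2 - 2 * (aa 𝓕 v t + 𝓕.rk) * (eps 𝓕 v t + 𝓕.rk))) / N) / (nv v : ℝ) ^ 2 := by
    have e1 : ∑ t, xx 𝓕 v t ^ 2 = (∑ t, (aa 𝓕 v t + 𝓕.rk) ^ 2 +
        ∑ t, ((eps 𝓕 v t + 𝓕.rk) ^ 2 - 2 * (aa 𝓕 v t + 𝓕.rk) * (eps 𝓕 v t + 𝓕.rk))) / (nv v : ℝ) ^ 2 := by
      rw [← Finset.sum_add_distrib, Finset.sum_div]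
      refine Finset.sum_congr rfl fun t _ => ?_
      unfold xx
      rw [div_pow]
      congr 1
      ring
    rw [e1]
    field_simp
    ring
  rw [e, abs_div, abs_of_pos (by positivity : (0 : ℝ) < (nv v : ℝ) ^ 2), div_le_div_iff₀ (by positivity) (by positivity)]
  have h3 : |(∑ t, ((eps 𝓕 v t + 𝓕.rk) ^ 2 - 2 * (aa 𝓕 v t + 𝓕.rk) * (eps 𝓕 v t + 𝓕.rk))) / N| ≤
      (2 * (DD 𝓕.F₀.natDegree + 𝓕.rk) * (𝓕.rk + 1) + (𝓕.rk + 1) ^ 2) * Q := by
    rw [abs_div, abs_of_pos hc0, div_le_iff₀ hc0]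
    refine (Finset.abs_sum_le_sum_abs _ _).trans ?_
    have h4 : ∀ t, |(eps 𝓕 v t + 𝓕.rk) ^ 2 - 2 * (aa 𝓕 v t + 𝓕.rk) * (eps 𝓕 v t + 𝓕.rk)| ≤
        (2 * (DD 𝓕.F₀.natDegree + 𝓕.rk) * (𝓕.rk + 1) + (𝓕.rk + 1) ^ 2) * Q := by
      intro t
      obtain ⟨g1, g2⟩ := eps_le 𝓕 v t
      have g3 := aa_le 𝓕 v t
      rw [← hQ] at g3
      have g4 : |eps 𝓕 v t + 𝓕.rk| ≤ 𝓕.rk + 1 := by rw [abs_of_nonneg (by positivity)]; linarith
      have g5 : |aa 𝓕 v t + 𝓕.rk| ≤ (DD 𝓕.F₀.natDegree + 𝓕.rk) * Q := by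
        refine (abs_add_le _ _).trans ?_
        have : (𝓕.rk : ℝ) ≤ 𝓕.rk * Q := le_mul_of_one_le_right (by positivity) hQ1
        have g6 : |(𝓕.rk : ℝ)| = 𝓕.rk := abs_of_nonneg (by positivity)
        rw [g6]
        linarith
      refine (abs_sub _ _).trans ?_
      rw [abs_pow, abs_mul, abs_mul, abs_two]
      have g7 : |eps 𝓕 v t + 𝓕.rk| ^ 2 ≤ (𝓕.rk + 1) ^ 2 * Q := by
        have : |eps 𝓕 v t + 𝓕.rk| ^ 2 ≤ ((𝓕.rk : ℝ) + 1) ^ 2 := pow_le_pow_left₀ (abs_nonneg _) g4 2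
        exact this.trans (le_mul_of_one_le_right (by positivity) hQ1)
      have g8 : 2 * |aa 𝓕 v t + 𝓕.rk| * |eps 𝓕 v t + 𝓕.rk| ≤ 2 * ((DD 𝓕.F₀.natDegree + 𝓕.rk) * Q) * (𝓕.rk + 1) := by
        gcongr
      have : (2 * (DD 𝓕.F₀.natDegree + 𝓕.rk) * ((𝓕.rk : ℝ) + 1) + (𝓕.rk + 1) ^ 2) * Q =
          (𝓕.rk + 1) ^ 2 * Q + 2 * ((DD 𝓕.F₀.natDegree + 𝓕.rk) * Q) * (𝓕.rk + 1) := by ring
      rw [this]
      exact add_le_add g7 g8
    refine (Finset.sum_le_sum fun t _ => h4 t).trans ?_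
    rw [Finset.sum_const, Finset.card_univ, nsmul_eq_mul, ← hN, mul_comm]
  have h5 : |((∑ t, (aa 𝓕 v t + 𝓕.rk) ^ 2) / N - nv v) +
        (∑ t, ((eps 𝓕 v t + 𝓕.rk) ^ 2 - 2 * (aa 𝓕 v t + 𝓕.rk) * (eps 𝓕 v t + 𝓕.rk))) / N| ≤ C2 𝓕 * Q := by
    refine (abs_add_le _ _).trans ((add_le_add h2 h3).trans ?_)
    rw [← add_mul]
    refine mul_le_mul_of_nonneg_right ?_ hQ0.le
    unfold C2
    have : (0 : ℝ) ≤ (2 * 𝓕.F₀.natDegree : ℕ) := by positivity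
    linarith
  calc _ ≤ C2 𝓕 * Q * (nv v * Q) := mul_le_mul_of_nonneg_right h5 (by positivity)
    _ = C2 𝓕 * nv v * (Q * Q) := by ring
    _ = C2 𝓕 * (nv v : ℝ) ^ 2 := by rw [hQQ]; ring

/-! ### the data -/

/-- large places -/
noncomputable def Q0 : ℕ := ⌈(2 * (DD 𝓕.F₀.natDegree + 1)) ^ 2⌉₊ + 2

theorem large {v : HeightOneSpectrum (𝓞 K)} (hv : Q0 𝓕 ≤ nv v) : (DD 𝓕.F₀.natDegree + 1) / Real.sqrt (nv v) ≤ 1 / 2 := by
  have hD := DD_nonneg 𝓕.F₀.natDegree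
  obtain ⟨h1, h2⟩ := sqrt_facts v
  have h3 : (2 * (DD 𝓕.F₀.natDegree + 1)) ^ 2 ≤ (nv v : ℝ) := by
    have h4 := Nat.le_ceil ((2 * (DD 𝓕.F₀.natDegree + 1)) ^ 2)
    have h5 : ((⌈(2 * (DD 𝓕.F₀.natDegree + 1)) ^ 2⌉₊ : ℕ) : ℝ) ≤ nv v := by
      have : ⌈(2 * (DD 𝓕.F₀.natDegree + 1)) ^ 2⌉₊ ≤ nv v := le_trans (by unfold Q0; omega) hv
      exact_mod_cast this
    linarith
  have h6 : 2 * (DD 𝓕.F₀.natDegree + 1) ≤ Real.sqrt (nv v) := Real.le_sqrt_of_sq_le h3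
  rw [div_le_iff₀ (by linarith)]
  linarith

/-- the bound of the logarithms -/
noncomputable def LL : ℝ := Real.log (Q0 𝓕) + (DD 𝓕.F₀.natDegree + 1) + 1

theorem lam_bound (v : HeightOneSpectrum (𝓞 K)) (t : Fin 2 ⊕ J → kv v) : |Real.log (1 + xx 𝓕 v t)| ≤ LL 𝓕 := by
  have hD := DD_nonneg 𝓕.F₀.natDegree
  have hQ0 : (1 : ℝ) ≤ Q0 𝓕 := by
    have : 1 ≤ Q0 𝓕 := by unfold Q0; omega
    exact_mod_cast this
  have hlog := Real.log_nonneg hQ0
  obtain ⟨h1, h2⟩ := sqrt_facts v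
  have h3 := xx_le 𝓕 v t
  have h4 := one_add_xx_ge 𝓕 v t
  have hq := nv_pos v
  have hpos : 0 < 1 + xx 𝓕 v t := lt_of_lt_of_le (by positivity) h4
  have h5 : xx 𝓕 v t ≤ DD 𝓕.F₀.natDegree + 1 := (le_abs_self _).trans (h3.trans (div_le_self (by positivity) h1))
  have h6 : Real.log (1 + xx 𝓕 v t) ≤ DD 𝓕.F₀.natDegree + 1 := by
    have := Real.log_le_sub_one_of_pos hpos
    linarith
  rw [abs_le]
  unfold LL
  refine ⟨?_, by linarith⟩
  by_cases hv : Q0 𝓕 ≤ nv v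
  · have h7 := large 𝓕 hv
    have h8 : -(1 / 2) ≤ xx 𝓕 v t := (abs_le.1 (h3.trans h7)).1
    have h9 : 1 - (1 + xx 𝓕 v t)⁻¹ ≤ Real.log (1 + xx 𝓕 v t) := Real.one_sub_inv_le_log_of_pos hpos
    have h10 : (1 + xx 𝓕 v t)⁻¹ ≤ 2 := by
      rw [inv_le_comm₀ hpos (by norm_num)]
      linarith
    linarith
  · have h7 : (nv v : ℝ) ≤ Q0 𝓕 := by exact_mod_cast (not_le.1 hv).le
    have h8 : Real.log (1 / (nv v : ℝ)) ≤ Real.log (1 + xx 𝓕 v t) := Real.log_le_log (by positivity) h4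
    rw [one_div, Real.log_inv] at h8
    have h9 : Real.log (nv v) ≤ Real.log (Q0 𝓕) := Real.log_le_log hq h7
    linarith

/-- **The local data of the products of Birch and Swinnerton-Dyer.** -/
noncomputable def bsdData : LocalData K (Fin 2 ⊕ J) where
  lam v t := Real.log (1 + xx 𝓕 v t)
  m := 𝓕.rk + 1 / 2
  D := 1
  D_pos := one_pos
  L := LL 𝓕
  lam_le v t := lam_bound 𝓕 v t
  moments R hR := by
    classical
    obtain ⟨C, hC, hloc⟩ := pow_local (DD 𝓕.F₀.natDegree + 1) (𝓕.rk + 1) (C2 𝓕) R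
      (by have := DD_nonneg 𝓕.F₀.natDegree; positivity) (C2_nonneg 𝓕) hR
    set B : ℝ := R * LL 𝓕 + (R * |(𝓕.rk : ℝ) + 1 / 2| + R ^ 2 / 2) with hB
    have hLL : 0 ≤ LL 𝓕 := by
      obtain ⟨v⟩ : Nonempty (HeightOneSpectrum (𝓞 K)) := by
        by_contra h
        rw [not_nonempty_iff] at h
        have h1 := VZ_atTop (K := K)
        have h2 : VZ K = fun _ => 0 := by
          funext Z
          unfold VZ
          rw [Finset.eq_empty_of_isEmpty (SZ K Z), Finset.sum_empty]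
        rw [h2] at h1
        exact not_tendsto_const_atTop (0 : ℝ) atTop h1
      exact (abs_nonneg _).trans (lam_bound 𝓕 v 0)
    have hB0 : 0 ≤ B := by positivity
    set D : ℝ := Real.exp B + 1 with hD
    have hD0 : 0 ≤ D := by positivity
    have hfin : {v : HeightOneSpectrum (𝓞 K) | N0 𝓕 ∈ v.asIdeal ∨ nv v < Q0 𝓕}.Finite := by
      refine ((finite_bad 𝓕).union (SZ K (Q0 𝓕)).finite_toSet).subset fun v hv => ?_
      rcases hv with h | h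
      · exact Or.inl h
      · exact Or.inr (Finset.mem_coe.2 (mem_SZ.2 h.le))
    refine ⟨fun v => C * (nv v : ℝ) ^ (-(3 / 2 : ℝ)) + (if N0 𝓕 ∈ v.asIdeal ∨ nv v < Q0 𝓕 then D else 0), ?_, ?_⟩
    · refine Summable.add ?_ ?_
      · exact (Pool.Agent.H921R2.TatePole.nm_summable (K := K) (x := 3 / 2) (by norm_num)).mul_left C
      · refine summable_of_hasFiniteSupport (hfin.subset fun v hv => ?_)
        by_contra hc
        apply hv
        exact if_neg hc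
    · intro v κ hκ
      have hnv := nv_pos v
      by_cases hbad : N0 𝓕 ∈ v.asIdeal ∨ nv v < Q0 𝓕
      · simp only [if_pos hbad]
        have h1 : ‖avg Finset.univ (fun t => Complex.exp (κ * (Real.log (1 + xx 𝓕 v t) : ℝ) -
            (κ * ((𝓕.rk + 1 / 2 : ℝ) : ℂ) + κ ^ 2 * ((1 : ℝ) : ℂ) / 2) * cv v)) - 1‖ ≤ D := by
          refine (norm_sub_le _ _).trans ?_
          rw [norm_one, hD]
          refine add_le_add_left ?_ _
          refine norm_avg_le _ _ _ (Real.exp_pos _).le fun t _ => ?_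
          rw [Complex.norm_exp]
          refine Real.exp_le_exp.2 ((Complex.re_le_norm _).trans ((norm_sub_le _ _).trans ?_))
          rw [hB]
          refine add_le_add ?_ ?_
          · rw [norm_mul, Complex.norm_real, Real.norm_eq_abs]
            exact mul_le_mul hκ (lam_bound 𝓕 v t) (abs_nonneg _) hR
          · rw [norm_mul, Complex.norm_real, Real.norm_of_nonneg (cv_pos v).le]
            refine (mul_le_of_le_one_right (norm_nonneg _) (cv_le v)).trans ?_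
            refine (norm_add_le _ _).trans (add_le_add ?_ ?_)
            · rw [norm_mul, Complex.norm_real, Real.norm_eq_abs]
              gcongr
            · rw [Complex.ofReal_one, mul_one, norm_div, norm_pow, Complex.norm_ofNat]
              gcongr
        have h2 : 0 ≤ C * (nv v : ℝ) ^ (-(3 / 2 : ℝ)) := by positivity
        linarith
      · simp only [if_neg hbad, add_zero]
        rw [not_or, not_lt] at hbad
        have hq2 : (2 : ℝ) ≤ nv v := by exact_mod_cast two_le_nv v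
        have h := hloc κ hκ (nv v) hq2 (large 𝓕 hbad.2) (Fin 2 ⊕ J → kv v) inferInstance (xx 𝓕 v) (xx_le 𝓕 v)
          (avg_xx 𝓕 hbad.1) (avg_xx_sq 𝓕 hbad.1)
        have e1 : C / ((nv v : ℝ) * Real.sqrt (nv v)) = C * (nv v : ℝ) ^ (-(3 / 2 : ℝ)) := by
          rw [Real.rpow_neg hnv.le, div_eq_mul_inv]
          congr 2
          rw [Real.sqrt_eq_rpow]
          nth_rewrite 1 [← Real.rpow_one (nv v : ℝ)]
          rw [← Real.rpow_add hnv]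
          norm_num
        rw [e1] at h
        refine le_trans (le_of_eq ?_) h
        congr 2
        unfold avg
        congr 1
        refine Finset.sum_congr rfl fun t _ => ?_
        unfold cv
        have e2 : (𝓕.rk : ℝ) + 1 / 2 = (𝓕.rk : ℝ) + 1 - 1 / 2 := by ring
        rw [e2, Complex.ofReal_one, mul_one]

end

end Run7.h9.BS
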